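import Mathlib

/-! Abelian groups with the minimum condition, polycyclic induction and near splitting. -/

set_option autoImplicit false
set_option linter.unusedSectionVars false

namespace Pool.Agent.P.MP_90339f_al.H2

open scoped Classical

section ab
variable {D : Type} [CommGroup D]

theorem ext_char {K : Type} [Field K] [IsAlgClosed K] {A : Type} [CommGroup A] (f : A →* D)
    (hf : Function.Injective f) (φ : A →* Kˣ) : ∃ ψ : D →* Kˣ, ∀ a, ψ (f a) = φ a := by
  let : DivisibleBy (Additive Kˣ) ℕ := divisibleByOfSMulRightSurj _ _ fun {n} hn u => by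
    obtain ⟨z, hz⟩ := IsAlgClosed.exists_pow_nat_eq (u.toMul : K) (Nat.pos_of_ne_zero hn)
    have h0 : z ≠ 0 := by
      rintro rfl
      exact u.toMul.ne_zero (by rw [← hz, zero_pow hn])
    exact ⟨Additive.ofMul (Units.mk0 z h0), Additive.toMul.injective (Units.ext (by simpa using hz))⟩
  let := AddGroup.divisibleByIntOfDivisibleByNat (Additive Kˣ)
  obtain ⟨g, hg⟩ := (Module.Baer.of_divisible (Additive Kˣ)).extension_property_addMonoidHom
    f.toAdditive hf φ.toAdditive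
  exact ⟨MonoidHom.toAdditive.symm g, fun a => DFunLike.congr_fun hg (Additive.ofMul a)⟩

theorem exists_char (K : Type) [Field K] [IsAlgClosed K] (h : ∀ d : D, (orderOf d : K) ≠ 0)
    (Y : Subgroup D) {z : D} (hz : z ∉ Y) : ∃ ψ : D →* Kˣ, Y ≤ ψ.ker ∧ ψ z ≠ 1 := by
  let a : D ⧸ Y := z
  have h1 : orderOf a ∣ orderOf z := orderOf_map_dvd (QuotientGroup.mk' Y) z
  have h2 : (orderOf a : K) ≠ 0 := fun e => h z (by
    obtain ⟨c, hc⟩ := h1
    rw [hc, Nat.cast_mul, e, zero_mul])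
  have : Finite (Subgroup.zpowers a) :=
    Nat.finite_of_card_ne_zero (by rw [Nat.card_zpowers]; rintro e; simp [e] at h2)
  have : NeZero ((Monoid.exponent (Subgroup.zpowers a) : ℕ) : K) :=
    ⟨by rwa [IsCyclic.exponent_eq_card, Nat.card_zpowers]⟩
  obtain ⟨φ, hφ⟩ := CommGroup.exists_apply_ne_one_of_hasEnoughRootsOfUnity (Subgroup.zpowers a) K
    (a := ⟨a, Subgroup.mem_zpowers a⟩) fun e =>
      hz ((QuotientGroup.eq_one_iff z).1 (congrArg Subtype.val e))
  obtain ⟨ψ, hψ⟩ := ext_char (Subgroup.zpowers a).subtype Subtype.val_injective φ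
  refine ⟨ψ.comp (QuotientGroup.mk' Y), fun y hy => ?_, fun e => hφ ((hψ _).symm.trans e)⟩
  simp [(QuotientGroup.eq_one_iff y).2 hy]

variable [WellFoundedLT (Subgroup D)]

theorem stab (X : Subgroup D) : ∃ n, n ≠ 0 ∧ ∀ m, m ≠ 0 → ∀ x ∈ X, ∃ y ∈ X, x ^ n = y ^ (m * n) := by
  obtain ⟨_, ⟨n, hn, rfl⟩, h⟩ := WellFounded.has_min wellFounded_lt
    {Z : Subgroup D | ∃ n, n ≠ 0 ∧ X.map (powMonoidHom n) = Z} ⟨_, 1, one_ne_zero, rfl⟩
  refine ⟨n, hn, fun m hm x hx => ?_⟩
  have : X.map (powMonoidHom (m * n)) ≤ X.map (powMonoidHom n) := by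
    rintro _ ⟨y, hy, rfl⟩
    exact ⟨y ^ m, pow_mem hy m, (pow_mul y m n).symm⟩
  obtain ⟨y, hy, e⟩ := (this.eq_of_not_lt (h _ ⟨_, mul_ne_zero hm hn, rfl⟩)).ge ⟨x, hx, rfl⟩
  exact ⟨y, hy, e.symm⟩

theorem ord_ne (d : D) : orderOf d ≠ 0 := by
  obtain ⟨n, hn, h⟩ := stab (Subgroup.zpowers d)
  obtain ⟨_, ⟨k, rfl⟩, e⟩ := h 2 two_ne_zero d (Subgroup.mem_zpowers d)
  intro h0
  rw [← zpow_natCast, ← zpow_natCast, ← zpow_mul, zpow_eq_zpow_iff_modEq, h0] at e
  have e1 : (n : ℤ) * 1 = n * (k * 2) := by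
    have := Int.modEq_zero_iff.1 e
    push_cast at this
    linear_combination this
  have := mul_left_cancel₀ (Int.natCast_ne_zero.2 hn) e1
  omega

theorem inter (K : Type) [Field K] [IsAlgClosed K] (h : ∀ d : D, (orderOf d : K) ≠ 0)
    (Y : Subgroup D) (P : Subgroup D → Prop) (h0 : P ⊤)
    (hs : ∀ Z (ψ : D →* Kˣ), Y ≤ ψ.ker → P Z → P (Z ⊓ ψ.ker)) : P Y := by
  obtain ⟨Z, ⟨z1, z2⟩, hZ⟩ := WellFounded.has_min wellFounded_lt {Z | Y ≤ Z ∧ P Z} ⟨⊤, le_top, h0⟩
  refine (le_antisymm (fun z hz => by_contra fun hn => ?_) z1 : Z = Y) ▸ z2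
  obtain ⟨ψ, a, b⟩ := exists_char K h Y hn
  exact hZ _ ⟨le_inf z1 a, hs Z ψ a z2⟩ (lt_of_le_of_ne inf_le_left fun e => b (e.ge hz).2)

variable (D) in
theorem finite_tors {n : ℕ} (hn : n ≠ 0) : {d : D | d ^ n = 1}.Finite := by
  have : NeZero n := ⟨hn⟩
  have := inter ℂ (fun d : D => Nat.cast_ne_zero.2 (ord_ne d)) ⊥
    (fun Z => Z.relIndex (powMonoidHom n).ker ≠ 0) (by simp) fun Z ψ _ h =>
      Subgroup.relIndex_inf_ne_zero h (by
        rw [Subgroup.relIndex_ker]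
        have : Finite ((powMonoidHom n : D →* D).ker.map ψ) :=
          Set.Finite.subset (s := (rootsOfUnity n ℂ : Set ℂˣ))
            (inferInstanceAs (Finite (rootsOfUnity n ℂ))) (by
            rintro _ ⟨d, hd, rfl⟩
            exact (mem_rootsOfUnity _ _).2 (by rw [← map_pow, show d ^ n = 1 from hd, map_one]))
        exact Nat.card_pos.ne')
  rw [Subgroup.relIndex_bot_left] at this
  exact Nat.finite_of_card_ne_zero this

variable (D) in
theorem countable_min : Countable D := by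
  refine Set.countable_univ_iff.1 ((Set.countable_iUnion fun n : ℕ =>
    (finite_tors D n.succ_ne_zero).countable).mono fun d _ => Set.mem_iUnion.2 ⟨orderOf d - 1, ?_⟩)
  simp [Nat.succ_eq_add_one, Nat.sub_add_cancel (Nat.pos_of_ne_zero (ord_ne d))]

variable (D) in
theorem primes_bdd : ∃ k, ∀ p : ℕ, p.Prime → ∀ d : D, p ∣ orderOf d → p ≤ k := by
  let T : ℕ → Subgroup D := fun k =>
    { carrier := {d | ∀ p : ℕ, p.Prime → p ∣ orderOf d → k < p}
      one_mem' := fun p hp h => absurd (by simpa using h) hp.ne_one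
      mul_mem' := fun {a b} ha hb p hp h =>
        ((Nat.Prime.dvd_mul hp).1 (h.trans (Commute.all a b).orderOf_mul_dvd_mul_orderOf)).elim
          (ha p hp) (hb p hp)
      inv_mem' := fun ha => by simpa using ha }
  obtain ⟨_, ⟨k, rfl⟩, h⟩ := WellFounded.has_min wellFounded_lt (Set.range T) ⟨_, 0, rfl⟩
  refine ⟨k, fun p hp d hd => by_contra fun hk => ?_⟩
  have e := orderOf_pow_orderOf_div (ord_ne d) hd
  have h1 : T p ≤ T k := fun x hx q hq h => (not_le.1 hk).trans (hx q hq h)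
  have h2 : d ^ (orderOf d / p) ∈ T k := fun q hq h => by
    rw [e] at h
    rw [(Nat.prime_dvd_prime_iff_eq hq hp).1 h]
    exact not_le.1 hk
  exact lt_irrefl p ((h1.eq_of_not_lt (h _ ⟨p, rfl⟩)).ge h2 p hp e.symm.dvd)

theorem exp_finset (s : Finset D) : ∃ n, n ≠ 0 ∧ ∀ d ∈ s, d ^ n = 1 :=
  ⟨∏ d ∈ s, orderOf d, Finset.prod_ne_zero_iff.2 fun d _ => ord_ne d,
    fun _ h => orderOf_dvd_iff_pow_eq_one.1 (Finset.dvd_prod_of_mem _ h)⟩

/-- The automorphisms fixing the elements of exponent `n` have finite index. -/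
theorem fix_index {Q : Type} [Group Q] (α : Q →* MulAut D) {n : ℕ} (hn : n ≠ 0) :
    ∃ C : Subgroup Q, C.FiniteIndex ∧ ∀ g ∈ C, ∀ d : D, d ^ n = 1 → α g d = d := by
  let : MulAction Q D := MulAction.compHom D α
  have := (finite_tors D hn).to_subtype
  refine ⟨⨅ d : {d : D | d ^ n = 1}, MulAction.stabilizer Q d.1, Subgroup.finiteIndex_iInf
    fun d => ⟨?_⟩, fun g hg d hd => Subgroup.mem_iInf.1 hg ⟨d, hd⟩⟩
  rw [MulAction.index_stabilizer]
  refine ((Set.ncard_pos ((finite_tors D hn).subset ?_)).2 ⟨_, MulAction.mem_orbit_self _⟩).ne'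
  rintro _ ⟨g, rfl⟩
  change α g d.1 ^ n = 1
  rw [← map_pow, show d.1 ^ n = 1 from d.2, map_one]

/-- The stabiliser of a subgroup. -/
def Nm {Q : Type} [Group Q] (α : Q →* MulAut D) (X : Subgroup D) : Subgroup Q where
  carrier := {g | ∀ d, α g d ∈ X ↔ d ∈ X}
  one_mem' := by simp
  mul_mem' := fun ha hb d => by rw [map_mul, MulAut.mul_apply, ha, hb]
  inv_mem' := fun {g} ha d => by rw [← ha]; simp

theorem Nm_sup {Q : Type} [Group Q] (α : Q →* MulAut D) {m : ℕ} (hm : m ≠ 0) (X : Subgroup D)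
    (h : (Nm α (X ⊔ (powMonoidHom m : D →* D).ker)).FiniteIndex) : (Nm α X).FiniteIndex := by
  obtain ⟨n, hn, hs⟩ := stab X
  obtain ⟨C, _, hC⟩ := fix_index α hn
  have key : ∀ g ∈ Nm α (X ⊔ (powMonoidHom m : D →* D).ker) ⊓ C, ∀ x ∈ X, α g x ∈ X := by
    intro g hg x hx
    obtain ⟨y, hy, e⟩ := hs m hm x hx
    have e1 := hC g hg.2 (x * (y ^ m)⁻¹) (by rw [mul_pow, e, inv_pow, ← pow_mul, mul_inv_cancel])
    obtain ⟨a, ha, b, hb, e2⟩ := Subgroup.mem_sup.1 ((hg.1 y).2 (Subgroup.mem_sup_left hy))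
    rw [map_mul, map_inv, map_pow, ← e2, mul_pow, show b ^ m = 1 from hb, mul_one,
      mul_inv_eq_iff_eq_mul] at e1
    rw [e1]
    exact mul_mem (mul_mem hx (inv_mem (pow_mem hy m))) (pow_mem ha m)
  exact Subgroup.finiteIndex_of_le (H := Nm α (X ⊔ (powMonoidHom m : D →* D).ker) ⊓ C)
    fun g hg d => ⟨fun hd => by simpa using key _ (inv_mem hg) _ hd, key g hg d⟩

theorem bad_char (K : Type) [Field K] [IsAlgClosed K] (h : ∀ d : D, (orderOf d : K) ≠ 0)
    {Q : Type} [Group Q] (α : Q →* MulAut D) {m : ℕ} (hm : m ≠ 0)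
    (H : ∀ ψ : D →* Kˣ, (∀ d, d ^ m = 1 → ψ d = 1) → (Nm α ψ.ker).FiniteIndex) (X : Subgroup D) :
    (Nm α X).FiniteIndex := by
  refine Nm_sup α hm X (inter K h _ (fun Z => (Nm α Z).FiniteIndex)
    (Subgroup.finiteIndex_of_le (H := ⊤) fun g _ d => Iff.rfl) fun Z ψ a b => ?_)
  have c := H ψ fun d hd => a (Subgroup.mem_sup_right (show d ∈ (powMonoidHom m).ker from hd))
  have e : Nm α Z ⊓ Nm α ψ.ker ≤ Nm α (Z ⊓ ψ.ker) := fun g hg d => by
    rw [Subgroup.mem_inf, Subgroup.mem_inf, hg.1 d, hg.2 d]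
  exact Subgroup.finiteIndex_of_le e

end ab

section poly
open scoped IsMulCommutative
variable {G : Type} [Group G] (D : Subgroup G) [D.Normal]

theorem poly_ind (hsol : Group.IsSolvable (G ⧸ D)) (hmax : ∀ H : Subgroup (G ⧸ D), H.FG)
    (P : Subgroup G → Prop) (h0 : P D)
    (hs : ∀ N t, D ≤ N → t ∈ Subgroup.normalizer (N : Set G) → P N →
      P (N ⊔ Subgroup.zpowers t)) : P ⊤ := by
  let N : ℕ → Subgroup G := fun i => (derivedSeries (G ⧸ D) i).comap (QuotientGroup.mk' D)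
  have hD : ∀ i, D ≤ N i := fun i d hd => by
    simp [N, (QuotientGroup.eq_one_iff d).2 hd]
  have hc : ∀ i, ∀ a ∈ N i, ∀ b ∈ N i, a * b * a⁻¹ * b⁻¹ ∈ N (i + 1) := fun i a ha b hb => by
    simpa [N, commutatorElement_def] using
      Subgroup.commutator_mem_commutator (Subgroup.mem_comap.1 ha) (Subgroup.mem_comap.1 hb)
  have hle : ∀ i, N (i + 1) ≤ N i := fun i =>
    Subgroup.comap_mono (derivedSeries_antitone _ i.le_succ)
  have step : ∀ i, P (N (i + 1)) → P (N i) := fun i h => by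
    have key : ∀ s : Finset G, (∀ t ∈ s, t ∈ N i) → P (N (i + 1) ⊔ Subgroup.closure s) := by
      intro s
      induction s using Finset.induction_on with
      | empty => simpa using h
      | insert t s _ ih =>
        intro ht
        have h1 : N (i + 1) ⊔ Subgroup.closure s ≤ N i := sup_le (hle i)
          ((Subgroup.closure_le _).2 fun x hx => ht x (Finset.mem_insert_of_mem hx))
        have h2 : ∀ a ∈ N i, ∀ x ∈ N (i + 1) ⊔ Subgroup.closure s,
            a * x * a⁻¹ ∈ N (i + 1) ⊔ Subgroup.closure s := fun a ha x hx => by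
          simpa using mul_mem (Subgroup.mem_sup_left (hc i a ha x (h1 hx))) hx
        have h3 := ht t (Finset.mem_insert_self _ _)
        have := hs _ t ((hD _).trans le_sup_left) (Subgroup.mem_normalizer_iff.2 fun x =>
          ⟨h2 t h3 x, fun hx => by simpa [mul_assoc] using h2 _ (inv_mem h3) _ hx⟩)
          (ih fun x hx => ht x (Finset.mem_insert_of_mem hx))
        rwa [Subgroup.zpowers_eq_closure, sup_assoc, ← Subgroup.closure_union, Set.union_singleton,
          ← Finset.coe_insert] at this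
    obtain ⟨s, hs⟩ := hmax (derivedSeries (G ⧸ D) i)
    have h4 : ∀ t ∈ s.image Quotient.out, t ∈ N i := fun t ht => by
      obtain ⟨q, hq, rfl⟩ := Finset.mem_image.1 ht
      simpa [N, ← hs] using Subgroup.subset_closure (G := G ⧸ D) hq
    convert key _ h4 using 1
    refine le_antisymm ?_ (sup_le (hle i) ((Subgroup.closure_le _).2 h4))
    refine le_trans ?_ (sup_le_sup_right (hD _) _)
    refine (Subgroup.comap_mono ?_).trans_eq ((Subgroup.comap_map_eq (QuotientGroup.mk' D) _).trans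
      (by rw [QuotientGroup.ker_mk', sup_comm]))
    rw [← hs, Subgroup.closure_le]
    exact fun q hq => ⟨q.out, Subgroup.subset_closure (Finset.mem_image_of_mem _ hq), q.out_eq⟩
  obtain ⟨n, hn⟩ := hsol
  have : ∀ i, P (N (n - i)) := fun i => by
    induction i with
    | zero => simpa [N, hn] using h0
    | succ i ih =>
      rcases Nat.eq_zero_or_pos (n - i) with e | e
      · rwa [show n - (i + 1) = n - i by omega]
      · exact step _ (by rwa [show n - (i + 1) + 1 = n - i by omega])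
  simpa [N] using this n

theorem Nm_conj [IsMulCommutative D] (X : Subgroup D) :
    Nm MulAut.conjNormal X = Subgroup.normalizer (X.map D.subtype : Set G) := by
  have h : ∀ d : D, d.1 ∈ X.map D.subtype ↔ d ∈ X := fun d => Subgroup.mem_map_iff_mem
    Subtype.val_injective
  ext g
  refine ⟨fun hg => Subgroup.mem_normalizer_iff.2 fun x => ?_, fun hg d => by
    rw [← h, ← h, Subgroup.mem_normalizer_iff.1 hg d.1, MulAut.conjNormal_apply]⟩
  by_cases hx : x ∈ D
  · exact (h ⟨x, hx⟩).trans ((hg _).symm.trans (h _).symm)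
  · exact iff_of_false (fun a => hx (Subgroup.map_subtype_le X a)) fun a =>
      hx (by simpa [mul_assoc] using ‹D.Normal›.conj_mem _ (Subgroup.map_subtype_le X a) g⁻¹)

theorem near_split [IsMulCommutative D] [WellFoundedLT (Subgroup D)]
    (hsol : Group.IsSolvable (G ⧸ D)) (hmax : ∀ H : Subgroup (G ⧸ D), H.FG) :
    ∃ m, m ≠ 0 ∧ ∃ L : Subgroup G, (∀ g, ∃ d ∈ D, d⁻¹ * g ∈ L) ∧ ∀ x ∈ L, x ∈ D → x ^ m = 1 := by
  have := poly_ind D hsol hmax (fun N => ∃ m, m ≠ 0 ∧ ∃ s : Finset G,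
      Subgroup.closure s ≤ N ∧ (∀ x ∈ N, ∃ d ∈ D, d⁻¹ * x ∈ Subgroup.closure (s : Set G)) ∧
        ∀ x ∈ Subgroup.closure (s : Set G), x ∈ D → x ^ m = 1)
    ⟨1, one_ne_zero, ∅, by simp, fun x hx => ⟨x, hx, by simp⟩, by simp⟩ ?_
  · obtain ⟨m, hm, s, -, h1, h2⟩ := this
    exact ⟨m, hm, _, fun g => h1 g trivial, h2⟩
  rintro N t hD ht ⟨m, hm, s, h0, h1, h2⟩
  choose! δ d1 d2 using h1
  obtain ⟨k, hk⟩ := (Subgroup.le_zpowers_iff t _).1 (inf_le_right : N ⊓ Subgroup.zpowers t ≤ _)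
  let F : Finset G := insert (t ^ k) (s.image (fun x => t * x * t⁻¹) ∪ s.image fun x => t⁻¹ * x * t)
  have hF : ∀ x ∈ F, x ∈ N := fun x hx => by
    simp only [F, Finset.mem_insert, Finset.mem_union, Finset.mem_image] at hx
    rcases hx with rfl | ⟨y, hy, rfl⟩ | ⟨y, hy, rfl⟩
    · exact (hk.ge (Subgroup.mem_zpowers _)).1
    · exact (Subgroup.mem_normalizer_iff.1 ht y).1 (h0 (Subgroup.subset_closure hy))
    · exact (Subgroup.mem_normalizer_iff''.1 ht y).1 (h0 (Subgroup.subset_closure hy))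
  obtain ⟨n, hn, he⟩ := exp_finset (F.attach.image fun x : F => (⟨δ x, d1 x (hF x x.2)⟩ : D))
  let T : Subgroup G := (powMonoidHom (n * m) : D →* D).ker.map D.subtype
  have hT : ∀ x, x ∈ T ↔ x ∈ D ∧ x ^ (n * m) = 1 := fun x =>
    ⟨by rintro ⟨y, hy, rfl⟩; exact ⟨y.2, congrArg Subtype.val hy⟩,
      fun h => ⟨⟨x, h.1⟩, Subtype.ext h.2, rfl⟩⟩
  have : T.Normal := ⟨fun x hx g => (hT _).2 ⟨‹D.Normal›.conj_mem _ ((hT _).1 hx).1 g, by
    rw [conj_pow, ((hT _).1 hx).2, mul_one, mul_inv_cancel]⟩⟩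
  have hfin : (T : Set G).Finite := (finite_tors D (mul_ne_zero hn hm)).image _
  have hFK : ∀ x ∈ F, x ∈ T ⊔ Subgroup.closure s := fun x hx => by
    have := congrArg Subtype.val (he _ (Finset.mem_image_of_mem _ (F.mem_attach ⟨x, hx⟩)))
    simpa using mul_mem (Subgroup.mem_sup_left (T := Subgroup.closure (s : Set G))
      ((hT _).2 ⟨d1 x (hF x hx), by rw [pow_mul, show δ x ^ n = 1 from this, one_pow]⟩))
      (Subgroup.mem_sup_right (d2 x (hF x hx)))
  have cj : ∀ u : G, (∀ x ∈ s, u * x * u⁻¹ ∈ F) → ∀ x ∈ T ⊔ Subgroup.closure s,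
      u * x * u⁻¹ ∈ T ⊔ Subgroup.closure s := fun u hu x hx =>
    (sup_le (fun x hx => Subgroup.mem_sup_left (this.conj_mem x hx u))
      ((Subgroup.closure_le _).2 fun x hx => hFK _ (hu x hx)) : T ⊔ Subgroup.closure s ≤
        (T ⊔ Subgroup.closure s).comap (MulAut.conj u).toMonoidHom) hx
  have nt : t ∈ Subgroup.normalizer ((T ⊔ Subgroup.closure (s : Set G) : Subgroup G) : Set G) :=
    Subgroup.mem_normalizer_iff.2 fun x => ⟨cj t (fun y hy => by
      simp only [F, Finset.mem_insert, Finset.mem_union, Finset.mem_image]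
      exact Or.inr (Or.inl ⟨y, hy, rfl⟩)) x, fun hx => by
      simpa [mul_assoc] using cj t⁻¹ (fun y hy => by
        simp only [F, Finset.mem_insert, Finset.mem_union, Finset.mem_image, inv_inv]
        exact Or.inr (Or.inr ⟨y, hy, rfl⟩)) _ hx⟩
  have hKN : T ⊔ Subgroup.closure s ≤ N := sup_le (fun x hx => hD ((hT _).1 hx).1) h0
  have e : Subgroup.closure ((insert t (hfin.toFinset ∪ s) : Finset G) : Set G) =
      (T ⊔ Subgroup.closure s) ⊔ Subgroup.zpowers t := by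
    rw [Finset.coe_insert, ← Set.union_singleton, Finset.coe_union, Subgroup.closure_union,
      Subgroup.closure_union, hfin.coe_toFinset, Subgroup.closure_eq, Subgroup.zpowers_eq_closure]
  refine ⟨n * m, mul_ne_zero hn hm, _, e ▸ sup_le_sup_right hKN _, fun x hx => ?_, fun x hx => ?_⟩
  · obtain ⟨a, ha, b, hb, rfl⟩ := (Subgroup.coe_mul_of_right_le_normalizer_left N _
      (Subgroup.zpowers_le.2 ht)).le hx
    refine ⟨δ a, d1 a ha, ?_⟩
    rw [e, ← mul_assoc]
    exact mul_mem (Subgroup.mem_sup_left (Subgroup.mem_sup_right (d2 a ha)))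
      (Subgroup.mem_sup_right hb)
  · intro hxD
    rw [e] at hx
    obtain ⟨a, ha, b, hb, rfl⟩ := (Subgroup.coe_mul_of_right_le_normalizer_left _ _
      (Subgroup.zpowers_le.2 nt)).le hx
    have hb' : b ∈ T ⊔ Subgroup.closure s :=
      Subgroup.zpowers_le.2 (hFK _ (Finset.mem_insert_self _ _))
        (hk.le ⟨by simpa using mul_mem (inv_mem (hKN ha)) (hD hxD), hb⟩)
    obtain ⟨y, hy, z, hz, e1⟩ := Subgroup.mem_sup_of_normal_left.1 (mul_mem ha hb')
    have hzD : z ∈ D := by simpa [← e1] using mul_mem (inv_mem ((hT _).1 hy).1) hxD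
    refine ((hT _).1 ?_).2
    change a * b ∈ T
    rw [← e1]
    exact mul_mem hy ((hT _).2 ⟨hzD, by rw [mul_comm, pow_mul, h2 z hz hzD, one_pow]⟩)

end poly

end Pool.Agent.P.MP_90339f_al.H2
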