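import Mathlib

/-! A skew basis theorem, Artinian modules over countable Noetherian rings, roots of unity. -/

set_option autoImplicit false
set_option linter.unusedSectionVars false

namespace Pool.Agent.P.MP_90339f_al.H2

open scoped Classical

theorem skew {A S : Type} [Ring A] [Ring S] [IsNoetherianRing A] (f : A →+* S) (t : Sˣ)
    (h1 : ∀ a, ∃ b, t * f a = f b * t) (h2 : ∀ a, ∃ b, f a * t = t * f b)
    (hg : ∀ T : Subring S, (∀ a, f a ∈ T) → ↑t ∈ T → ↑t⁻¹ ∈ T → T = ⊤) : IsNoetherianRing S := by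
  let : Module A S := Module.compHom S f
  have : IsScalarTower A S S := ⟨fun a x y => mul_assoc (f a) x y⟩
  have p1 : ∀ n a, ∃ b, (t : S) ^ n * f a = f b * t ^ n := fun n => by
    induction n with
    | zero => exact fun a => ⟨a, by simp⟩
    | succ n ih =>
      intro a
      obtain ⟨b, hb⟩ := ih a
      obtain ⟨c, hc⟩ := h1 b
      exact ⟨c, by rw [pow_succ', mul_assoc, hb, ← mul_assoc, hc, mul_assoc]⟩
  have p2 : ∀ n a, ∃ b, f a * (t : S) ^ n = t ^ n * f b := fun n => by
    induction n with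
    | zero => exact fun a => ⟨a, by simp⟩
    | succ n ih =>
      intro a
      obtain ⟨b, hb⟩ := ih a
      obtain ⟨c, hc⟩ := h2 b
      exact ⟨c, by rw [pow_succ, ← mul_assoc, hb, mul_assoc, hc, mul_assoc]⟩
  let W : ℕ → Submodule A S := fun n => Submodule.span A ((fun i => (t : S) ^ i) '' Set.Iio n)
  have wm : Monotone W := fun i j h => Submodule.span_mono (Set.image_mono (Set.Iio_subset_Iio h))
  have wt : ∀ k n, ∀ x ∈ W n, (t : S) ^ k * x ∈ W (k + n) := fun k n x hx => by
    induction hx using Submodule.span_induction with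
    | mem x hx =>
      obtain ⟨i, hi, rfl⟩ := hx
      exact Submodule.subset_span ⟨k + i, Nat.add_lt_add_left hi k, pow_add _ _ _⟩
    | zero => simp
    | add x y _ _ hx hy => exact mul_add (_ : S) x y ▸ add_mem hx hy
    | smul a x _ hx =>
      obtain ⟨b, hb⟩ := p1 k a
      have : (t : S) ^ k * (a • x) = b • ((t : S) ^ k * x) := by
        change _ * (f a * x) = f b * _
        rw [← mul_assoc, hb, mul_assoc]
      exact this ▸ Submodule.smul_mem _ b hx
  have ws : ∀ n, ∀ x ∈ W (n + 1), ∃ a, ∃ y ∈ W n, x = t ^ n * f a + y := fun n x hx => by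
    simp only [W, ← Set.Iio_insert, Set.Iio_add_one_eq_Iic, Set.image_insert_eq] at hx
    obtain ⟨a, y, hy, rfl⟩ := Submodule.mem_span_insert.1 hx
    obtain ⟨b, hb⟩ := p2 n a
    exact ⟨b, y, hy, congrArg (· + y) hb⟩
  have all : ∀ x : S, ∃ k n, (t : S) ^ k * x ∈ W n := by
    let T : AddSubgroup S :=
      { carrier := {x | ∃ k n, (t : S) ^ k * x ∈ W n}
        zero_mem' := ⟨0, 0, by simp⟩
        neg_mem' := fun ⟨k, n, h⟩ => ⟨k, n, by simpa using h⟩
        add_mem' := fun ⟨k, n, h⟩ ⟨k', n', h'⟩ => ⟨k + k', (k' + n) + (k + n'), by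
          rw [mul_add]
          refine add_mem (wm (Nat.le_add_right _ _) ?_) (wm (Nat.le_add_left _ _) ?_)
          · rw [add_comm k, pow_add, mul_assoc]; exact wt _ _ _ h
          · rw [pow_add, mul_assoc]; exact wt _ _ _ h'⟩ }
    let U : Subring S :=
      { carrier := {x | ∀ y ∈ T, x * y ∈ T}
        one_mem' := fun y hy => by rwa [one_mul]
        zero_mem' := fun y _ => by rw [zero_mul]; exact T.zero_mem
        mul_mem' := fun ha hb y hy => by rw [mul_assoc]; exact ha _ (hb y hy)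
        add_mem' := fun ha hb y hy => by rw [add_mul]; exact T.add_mem (ha y hy) (hb y hy)
        neg_mem' := fun ha y hy => by rw [neg_mul]; exact T.neg_mem (ha y hy) }
    have := hg U (fun a y ⟨k, n, h⟩ => by
        obtain ⟨b, hb⟩ := p1 k a
        exact ⟨k, n, by rw [← mul_assoc, hb, mul_assoc]; exact (W n).smul_mem b h⟩)
      (fun y ⟨k, n, h⟩ => ⟨k, 1 + n, by
        rw [← mul_assoc, ← pow_succ, pow_succ', mul_assoc]; simpa using wt 1 n _ h⟩)
      fun y ⟨k, n, h⟩ => ⟨k + 1, n, by rwa [pow_succ, mul_assoc, Units.mul_inv_cancel_left]⟩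
    exact fun x => show x ∈ T by
      simpa using (this.ge (Subring.mem_top x) : x ∈ U) 1
        ⟨0, 1, Submodule.subset_span ⟨0, Nat.one_pos, by simp⟩⟩
  refine ⟨fun L => ?_⟩
  let J : ℕ →o Submodule A A :=
    ⟨fun n =>
      { carrier := {a | ∃ y ∈ W n, t ^ n * f a + y ∈ L}
        zero_mem' := ⟨0, zero_mem _, by simp⟩
        add_mem' := fun ⟨y, hy, h⟩ ⟨z, hz, h'⟩ => ⟨y + z, add_mem hy hz, by
          rw [map_add, mul_add, add_add_add_comm]; exact add_mem h h'⟩
        smul_mem' := fun c a ⟨y, hy, h⟩ => by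
          obtain ⟨b, hb⟩ := p1 n c
          refine ⟨b • y, (W n).smul_mem b hy, ?_⟩
          rw [smul_eq_mul, map_mul, ← mul_assoc, hb, mul_assoc]
          exact mul_add (f b) _ y ▸ L.smul_mem (f b) h },
      monotone_nat_of_le_succ fun n a ⟨y, hy, h⟩ => ⟨t ^ 1 * y, add_comm 1 n ▸ wt 1 n y hy, by
        rw [pow_one, pow_succ', mul_assoc, ← mul_add]; exact L.smul_mem _ h⟩⟩
  obtain ⟨N, hN⟩ := monotone_stabilizes_iff_noetherian.2 ‹IsNoetherianRing A› J
  have : IsNoetherian A (W (N + 1)) :=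
    isNoetherian_span_of_finite A ((Set.finite_Iio _).image _)
  have hfg : (L.restrictScalars A ⊓ W (N + 1)).FG := by
    rw [inf_comm, ← Submodule.map_comap_subtype]
    exact (IsNoetherian.noetherian _).map _
  obtain ⟨s, hs⟩ := hfg
  refine ⟨s, le_antisymm (Submodule.span_le.2 fun x hx => (hs.le (Submodule.subset_span hx)).1)
    fun x hx => ?_⟩
  have base : ∀ x ∈ L, x ∈ W (N + 1) → x ∈ Submodule.span S (s : Set S) := fun x a b =>
    Submodule.span_le_restrictScalars A S _ (hs.ge ⟨a, b⟩)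
  have key : ∀ n, ∀ x ∈ L, x ∈ W (N + 1 + n) → x ∈ Submodule.span S (s : Set S) := fun n => by
    induction n with
    | zero => exact base
    | succ n ih =>
      intro x a b
      obtain ⟨c, y, hy, rfl⟩ := ws (N + 1 + n) x b
      obtain ⟨z, hz, h⟩ := (hN (N + 1 + n) (by omega)).ge ⟨y, hy, a⟩
      have e : (t : S) ^ (N + 1 + n) * f c + y =
          (y - t ^ (n + 1) * z) + t ^ (n + 1) * (t ^ N * f c + z) := by
        rw [mul_add, ← mul_assoc, ← pow_add, show n + 1 + N = N + 1 + n by omega]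
        abel
      rw [e] at a ⊢
      refine add_mem (ih _ (by simpa using sub_mem a (L.smul_mem ((t : S) ^ (n + 1)) h))
        (sub_mem hy (wm (by omega) (wt _ _ _ hz)))) (Submodule.smul_mem _ _ (base _ h ?_))
      obtain ⟨b, hb⟩ := p1 N c
      exact add_mem (hb ▸ Submodule.smul_mem _ b (Submodule.subset_span ⟨N, N.lt_succ_self, rfl⟩))
        (wm N.le_succ hz)
  obtain ⟨k, n, h⟩ := all x
  have := Submodule.smul_mem _ (((t ^ k)⁻¹ : Sˣ) : S)
    (key n _ (L.smul_mem _ hx) (wm (Nat.le_add_left _ _) h))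
  rwa [smul_eq_mul, smul_eq_mul, ← Units.val_pow_eq_pow_val, Units.inv_mul_cancel_left] at this

theorem countable_ext {M N : Type} [AddCommGroup M] [AddCommGroup N] (f : M →+ N)
    (h1 : Countable f.ker) (h2 : Countable f.range) : Countable M :=
  have := (QuotientAddGroup.quotientKerEquivRange f).toEquiv.countable_iff.2 h2
  (AddSubgroup.addGroupEquivQuotientProdAddSubgroup (s := f.ker)).countable_iff.2 inferInstance

section cn
variable (S M : Type) [Ring S] [Countable S] [AddCommGroup M] [Module S M] [IsArtinian S M]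

theorem ess : ∃ N : Submodule S M, Countable N ∧ ∀ V : Submodule S M, V ≠ ⊥ → V ⊓ N ≠ ⊥ := by
  obtain ⟨s, s1, -, s2, s3⟩ := exists_sSupIndep_disjoint_sSup_atoms (⊥ : Submodule S M)
    (sSup {a | IsAtom a}) bot_le (le_antisymm (sSup_le_sSup fun a h => h.2)
      (sSup_le_sSup fun a h => ⟨le_sSup h, h⟩))
  have hfg : (sSup s).FG := by
    rw [sSup_eq_iSup']
    have := (WellFoundedLT.finite_of_sSupIndep s1).to_subtype
    exact Submodule.fg_iSup _ fun a => by
      have := isSimpleModule_iff_isAtom.2 (s3 a.2)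
      exact (Submodule.fg_top _).1 Module.Finite.fg_top
  refine ⟨sSup s, ?_, fun V hV e => ?_⟩
  · obtain ⟨n, f, hf⟩ := @Module.Finite.exists_fin' S (sSup s : Submodule S M) _ _ _
      (Module.Finite.iff_fg.2 hfg)
    exact hf.countable
  · obtain ⟨a, a1, a2⟩ := (eq_bot_or_exists_atom_le V).resolve_left hV
    rw [bot_sup_eq] at s2
    exact a1.1 (le_bot_iff.1 (e ▸ le_inf a2 (s2 ▸ le_sSup a1)))

theorem countable_art [IsNoetherianRing S] : Countable M := by
  have step : ∀ N : Submodule S M, Countable N → ∃ N' : Submodule S M, Countable N' ∧ N ≤ N' ∧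
      ∀ x, x ∉ N → ∃ y ∈ Submodule.span S {x}, y ∈ N' ∧ y ∉ N := fun N hN => by
    obtain ⟨E, e1, e2⟩ := ess S (M ⧸ N)
    refine ⟨E.comap N.mkQ, countable_ext (N.mkQ.comp (E.comap N.mkQ).subtype).toAddMonoidHom
      (Function.Injective.countable
        (f := fun x => (⟨x.1.1, (Submodule.Quotient.mk_eq_zero N).1 x.2⟩ : N))
        fun x y h => Subtype.ext (Subtype.ext (Subtype.mk.inj h)))
      (Function.Injective.countable (f := fun x => (⟨x.1, x.2.elim fun y h => h ▸ y.2⟩ : E))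
        fun x y h => Subtype.ext (Subtype.mk.inj h)), N.le_comap_mkQ _, fun x hx => ?_⟩
    obtain ⟨_, ⟨⟨y, y1, rfl⟩, y2⟩, y3⟩ := (Submodule.ne_bot_iff _).1
      (e2 ((Submodule.span S {x}).map N.mkQ) ((Submodule.ne_bot_iff _).2
        ⟨_, ⟨x, Submodule.mem_span_singleton_self x, rfl⟩, by simpa using hx⟩))
    exact ⟨y, y1, y2, by simpa using y3⟩
  choose! F f1 f2 f3 using step
  have hc : ∀ n, Countable (F^[n] ⊥) := fun n => by
    induction n with
    | zero => exact inferInstanceAs (Countable (⊥ : Submodule S M))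
    | succ n ih => rw [Function.iterate_succ_apply']; exact f1 _ ih
  refine Set.countable_univ_iff.1 ((Set.countable_iUnion fun n =>
    (hc n : (F^[n] ⊥ : Set M).Countable)).mono fun x _ => by_contra fun hx => ?_)
  have := isNoetherian_span_of_finite S (Set.finite_singleton x)
  obtain ⟨n, hn⟩ := monotone_stabilizes_iff_noetherian.2 this
    ⟨fun n => (F^[n] ⊥).comap (Submodule.span S {x}).subtype, monotone_nat_of_le_succ fun n =>
      Submodule.comap_mono (by rw [Function.iterate_succ_apply']; exact f2 _ (hc n))⟩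
  obtain ⟨y, y1, y2, y3⟩ := f3 _ (hc n) x fun h => hx (Set.mem_iUnion.2 ⟨n, h⟩)
  rw [← Function.iterate_succ_apply' F] at y2
  exact y3 ((hn (n + 1) n.le_succ).ge (show ⟨y, y1⟩ ∈ _ from y2))

end cn

theorem lte {x : ℤ} {n : ℕ} (hn : n ≠ 0) (h : ∀ p : ℕ, p.Prime → p ∣ n → (p : ℤ) ∣ x - 1)
    (h4 : 2 ∣ n → 4 ∣ x - 1) {k : ℕ} (hk : (n : ℤ) ∣ x ^ k - 1) : (n : ℤ) ∣ (x - 1) * k := by
  rw [← Int.natAbs_dvd_natAbs, Int.natAbs_natCast,
    UniqueFactorizationMonoid.dvd_iff_emultiplicity_le hn]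
  intro p hp
  replace hp := hp.nat_prime
  by_cases a : p ∣ n
  · have b : ¬ (p : ℤ) ∣ x := fun b => (Nat.prime_iff_prime_int.1 hp).not_dvd_one
      (by simpa using dvd_sub b (h p hp a))
    rw [Int.emultiplicity_natAbs, emultiplicity_mul (Nat.prime_iff_prime_int.1 hp),
      ← Int.natCast_emultiplicity]
    refine (emultiplicity_le_emultiplicity_of_dvd_right hk).trans_eq ?_
    rcases hp.eq_two_or_odd' with rfl | c
    · simpa using Int.two_pow_sub_pow' k (h4 a) b
    · simpa [Int.natCast_emultiplicity] using Int.emultiplicity_pow_sub_pow hp c (h p hp a) b k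
  · simp [emultiplicity_eq_zero.2 a]

open Polynomial in
theorem few_classes (K : Type) [Field K] (k : ℕ) : ∃ C : ℕ, ∀ n, n ≠ 0 →
    (∀ p : ℕ, p.Prime → p ∣ n → p ≤ k) → ∀ z : Fin (C + 1) → K, (∀ i, IsPrimitiveRoot (z i) n) →
      ∃ i j, i ≠ j ∧ ∀ P : ℤ[X], aeval (z i) P = 0 → aeval (z j) P = 0 := by
  obtain ⟨l, hl⟩ := CharP.exists K
  rcases CharP.char_is_prime_or_zero K l with hp | rfl
  swap
  · have := CharP.charP_to_charZero K
    refine ⟨1, fun n hn _ z hz => ⟨0, 1, by simp, fun P h => ?_⟩⟩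
    obtain ⟨Q, rfl⟩ := minpoly.isIntegrallyClosed_dvd ((hz 0).isIntegral (Nat.pos_of_ne_zero hn)) h
    rw [← cyclotomic_eq_minpoly (hz 0) (Nat.pos_of_ne_zero hn),
      cyclotomic_eq_minpoly (hz 1) (Nat.pos_of_ne_zero hn), map_mul, minpoly.aeval, zero_mul]
  have := Fact.mk hp
  let e := k.factorial * 2
  refine ⟨l ^ e - 1, fun n hn hk z hz => ?_⟩
  have : NeZero n := ⟨hn⟩
  have c0 : l.Coprime n := (Nat.Prime.coprime_iff_not_dvd hp).2 fun h =>
    (hz 0).neZero'.1 ((CharP.cast_eq_zero_iff K l n).2 h)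
  let u := ZMod.unitOfCoprime _ (c0.pow_left e)
  have e1 : 1 < l ^ e := Nat.one_lt_pow (by positivity) hp.one_lt
  have ho : (n : ℤ) ∣ ((l : ℤ) ^ e - 1) * orderOf u := by
    refine lte hn (fun p p1 p2 => ?_) (fun h => ?_) ?_
    · obtain ⟨c, hc⟩ := Nat.dvd_factorial (Nat.sub_pos_of_lt p1.one_lt)
        ((Nat.sub_le p 1).trans (hk p p1 p2))
      have := (Nat.ModEq.pow_totient (c0.coprime_dvd_right p2)).pow (c * 2)
      rw [Nat.totient_prime p1, ← pow_mul, ← mul_assoc, ← hc, one_pow] at this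
      exact_mod_cast this.symm.dvd
    · obtain ⟨c, hc⟩ := ((Nat.coprime_two_right.1 (c0.coprime_dvd_right h)).pow
        (n := k.factorial))
      exact ⟨c * c + c, by rw [pow_mul, ← Nat.cast_pow, hc]; push_cast; ring⟩
    · rw [← ZMod.intCast_zmod_eq_zero_iff_dvd]
      have := congrArg Units.val (pow_orderOf_eq_one u)
      rw [Units.val_pow_eq_pow_val] at this
      simpa [u, sub_eq_zero] using this
  have hq : Nat.card ((ZMod n)ˣ ⧸ Subgroup.zpowers u) ≤ l ^ e - 1 := by
    refine Nat.le_of_mul_le_mul_right ?_ (orderOf_pos u)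
    rw [← Nat.card_zpowers, ← Subgroup.card_eq_card_quotient_mul_card_subgroup, Nat.card_zpowers,
      Nat.card_eq_fintype_card, ZMod.card_units_eq_totient]
    refine (Nat.totient_le n).trans (Nat.le_of_dvd (Nat.mul_pos (by omega) (orderOf_pos u)) ?_)
    rw [← Int.natCast_dvd_natCast]
    push_cast [Nat.cast_sub e1.le]
    exact ho
  choose a _ a1 a2 using fun i => (hz 0).isPrimitiveRoot_iff.1 (hz i)
  have := Fintype.ofFinite ((ZMod n)ˣ ⧸ Subgroup.zpowers u)
  obtain ⟨i, j, h1, h2⟩ := Fintype.exists_ne_map_eq_of_card_lt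
    (fun i => (QuotientGroup.mk (ZMod.unitOfCoprime _ (a1 i)) : _ ⧸ Subgroup.zpowers u))
    (by rw [← Nat.card_eq_fintype_card, Fintype.card_fin]; omega)
  obtain ⟨r, hr⟩ := mem_powers_iff_mem_zpowers.2 (QuotientGroup.eq.1 h2)
  refine ⟨i, j, h1, fun P h => ?_⟩
  have e2 : z j = iterateFrobenius K l (e * r) (z i) := by
    have := congrArg Units.val (eq_inv_mul_iff_mul_eq.1 hr)
    simp only [u, Units.val_mul, Units.val_pow_eq_pow_val, ZMod.coe_unitOfCoprime] at this
    rw [iterateFrobenius_def, ← a2 i, ← a2 j, ← pow_mul, pow_mul l e r]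
    exact (pow_eq_pow_of_modEq ((ZMod.natCast_eq_natCast_iff _ _ _).1 (by exact_mod_cast this))
      (hz 0).pow_eq_one).symm
  rw [e2]
  exact (aeval_algHom_apply (iterateFrobenius K l (e * r)).toIntAlgHom (z i) P).trans
    (by rw [h, map_zero])

end Pool.Agent.P.MP_90339f_al.H2
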