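import Pool.Agent.P.MP_90339f_al.H2.Unc
import Pool.Agent.P.MP_90339f_al.H2.Ring

/-! Countability of Artinian modules when all subgroups have finitely many conjugates. -/

set_option autoImplicit false
set_option linter.unusedSectionVars false

namespace Pool.Agent.P.MP_90339f_al.H2

open scoped Classical
open Polynomial

theorem pireg {A : Type} [CommRing A] (hi : ∀ n : ℤ, (n : A) = 0 ∨ IsUnit (n : A)) {P : Ideal A}
    (hP : P ≠ ⊤) {y : A} (hy : IsIntegral ℤ y) (h : y ∈ P) : ∃ k, ∃ u, u ∉ P ∧ y ^ k * u = 0 := by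
  have : Nontrivial A := by
    by_contra e
    exact hP (have := not_nontrivial_iff_subsingleton.1 e; Subsingleton.elim _ _)
  obtain ⟨p, p1, p2⟩ := hy
  have p0 := (p1.map (algebraMap ℤ A)).ne_zero
  obtain ⟨q, hq⟩ : X ^ (p.map (algebraMap ℤ A)).natTrailingDegree ∣ p.map (algebraMap ℤ A) :=
    X_pow_dvd_iff.2 fun d hd => coeff_eq_zero_of_lt_natTrailingDegree hd
  refine ⟨_, q.eval y, fun e => hP (P.eq_top_of_isUnit_mem (x := q.eval 0) ?_ ?_), by
    rw [← eval_map, hq] at p2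
    simpa using p2⟩
  · obtain ⟨c, hc⟩ := sub_dvd_eval_sub y 0 q
    have := P.sub_mem e (hc ▸ P.mul_mem_right c (by simpa using h))
    rwa [sub_sub_cancel] at this
  · have e1 := coeff_X_pow_mul q (p.map (algebraMap ℤ A)).natTrailingDegree 0
    rw [← hq, zero_add, coeff_zero_eq_eval_zero] at e1
    have e2 := trailingCoeff_nonzero_iff_nonzero.2 p0
    rw [← e1, coeff_map]
    rw [trailingCoeff, coeff_map] at e2
    exact (hi _).resolve_left e2

section base
variable {G D A : Type} [Group G] [CommGroup D] [WellFoundedLT (Subgroup D)] [CommRing A]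

theorem level (σ : D →* A) {y : A} (hy : y ∈ Subring.closure (Set.range σ)) :
    ∃ n, n ≠ 0 ∧ ∀ m, n ∣ m → y ∈ Subring.closure (σ '' {d | d ^ m = 1}) := by
  induction hy using Subring.closure_induction with
  | mem x hx =>
    obtain ⟨d, rfl⟩ := hx
    exact ⟨_, ord_ne d, fun m h =>
      Subring.subset_closure ⟨d, orderOf_dvd_iff_pow_eq_one.1 h, rfl⟩⟩
  | zero => exact ⟨1, one_ne_zero, fun _ _ => zero_mem _⟩
  | one => exact ⟨1, one_ne_zero, fun _ _ => one_mem _⟩
  | add x y _ _ hx hy =>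
    obtain ⟨n, a, b⟩ := hx
    obtain ⟨k, c, d⟩ := hy
    exact ⟨n * k, mul_ne_zero a c, fun m h =>
      add_mem (b m (dvd_of_mul_right_dvd h)) (d m (dvd_of_mul_left_dvd h))⟩
  | neg x _ hx => exact hx.imp fun n h => ⟨h.1, fun m a => neg_mem (h.2 m a)⟩
  | mul x y _ _ hx hy =>
    obtain ⟨n, a, b⟩ := hx
    obtain ⟨k, c, d⟩ := hy
    exact ⟨n * k, mul_ne_zero a c, fun m h =>
      mul_mem (b m (dvd_of_mul_right_dvd h)) (d m (dvd_of_mul_left_dvd h))⟩

theorem orbit_fin (α : G →* MulAut D) (β : G →* (A →+* A)) (σ : D →* A)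
    (hσ : ∀ g d, β g (σ d) = σ (α g d))
    (rep : ∀ x : A, ∃ n : ℤ, IsUnit (n : A) ∧ n * x ∈ Subring.closure (Set.range σ))
    (hN : ∀ X, (Nm α X).FiniteIndex) (P : Ideal A) [hP : P.IsMaximal] :
    (Set.range fun g => P.comap (β g)).Finite := by
  let := Ideal.Quotient.field P
  let χ : D →* (A ⧸ P)ˣ := ((Ideal.Quotient.mk P).toMonoidHom.comp σ).toHomUnits
  have hm : ∀ g, (P.comap (β g)).IsMaximal := fun g => Ideal.comap_isMaximal_of_surjective _
    fun a => ⟨β g⁻¹ a, by rw [← RingHom.comp_apply, ← RingHom.mul_def, ← map_mul]; simp⟩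
  suffices h : (Set.range fun h : Nm α χ.ker => P.comap (β h)).Finite by
    obtain ⟨s, -, hs⟩ := reps (H := Nm α χ.ker) (C := ⊤) (by simpa using (hN _).1)
    refine (s.finite_toSet.biUnion fun z _ => h.image (Ideal.comap (β z))).subset ?_
    rintro _ ⟨g, rfl⟩
    obtain ⟨z, z1, z2⟩ := hs g trivial
    refine Set.mem_biUnion z1 ⟨_, ⟨⟨_, z2⟩, rfl⟩, ?_⟩
    rw [Ideal.comap_comap, ← RingHom.mul_def, ← map_mul, inv_mul_cancel_right]
  by_contra hinf
  obtain ⟨k, hk⟩ := primes_bdd D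
  obtain ⟨C, hC⟩ := few_classes (A ⧸ P) k
  choose h hh using fun i : Fin (C + 1) => ((Set.Infinite.natEmbedding _ hinf) i).2
  have ne : ∀ p : Fin (C + 1) × Fin (C + 1), ∃ y ∈ Subring.closure (Set.range σ),
      p.1 ≠ p.2 → β (h p.1) y ∈ P ∧ β (h p.2) y ∉ P := fun p => by
    by_cases e : p.1 = p.2
    · exact ⟨0, zero_mem _, fun a => absurd e a⟩
    obtain ⟨x, x1, x2⟩ := SetLike.not_le_iff_exists.1 fun a => e (Fin.ext
      ((Set.Infinite.natEmbedding _ hinf).injective (Subtype.ext ((hh _).symm.trans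
        (((hm (h p.1)).eq_of_le (hm (h p.2)).ne_top a).trans (hh _))))))
    obtain ⟨n, n1, n2⟩ := rep x
    exact ⟨_, n2, fun _ => ⟨Ideal.mul_mem_left (P.comap _) _ x1,
      fun a => x2 ((Ideal.unit_mul_mem_iff_mem (P.comap _) n1).1 a)⟩⟩
  choose y y1 y2 using ne
  choose n n1 n2 using fun p => level σ (y1 p)
  have : Finite ((powMonoidHom (∏ p, n p) : D →* D).ker.map χ) :=
    (finite_tors D (Finset.prod_ne_zero_iff.2 fun p _ => n1 p)).image χ
  obtain ⟨⟨_, d₀, hd₀, rfl⟩, hd⟩ :=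
    IsCyclic.exists_monoid_generator (α := (powMonoidHom (∏ p, n p) : D →* D).ker.map χ)
  have key : ∀ x ∈ Subring.closure (σ '' {d | d ^ (∏ p, n p) = 1}), ∃ p : ℤ[X], ∀ i,
      Ideal.Quotient.mk P (β (h i) x) = aeval (χ (α (h i) d₀)).1 p := fun x hx => by
    induction hx using Subring.closure_induction with
    | mem x hx =>
      obtain ⟨d, hd', rfl⟩ := hx
      obtain ⟨e, he⟩ := hd ⟨_, d, hd', rfl⟩
      have e1 : d₀ ^ e * d⁻¹ ∈ χ.ker := by
        simpa [mul_inv_eq_one] using congrArg Subtype.val he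
      refine ⟨X ^ e, fun i => ?_⟩
      have e2 : χ (α (h i) d₀) ^ e = χ (α (h i) d) := by
        simpa [mul_inv_eq_one] using ((h i).2 _).2 e1
      rw [hσ, map_pow, aeval_X, ← Units.val_pow_eq_pow_val, e2]
      rfl
    | zero => exact ⟨0, by simp⟩
    | one => exact ⟨1, by simp⟩
    | add x y _ _ hx hy => exact hx.elim fun p a => hy.elim fun q b => ⟨p + q, by simp [a, b]⟩
    | neg x _ hx => exact hx.elim fun p a => ⟨-p, by simp [a]⟩
    | mul x y _ _ hx hy => exact hx.elim fun p a => hy.elim fun q b => ⟨p * q, by simp [a, b]⟩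
  have o := orderOf_map_dvd χ d₀
  obtain ⟨i, j, a, b⟩ := hC (orderOf (χ d₀)) (fun e => ord_ne d₀ (by simpa [e] using o))
    (fun p p1 p2 => hk p p1 d₀ (p2.trans o)) (fun i => (χ (α (h i) d₀)).1) fun i => by
      rw [IsPrimitiveRoot.coe_units_iff, show orderOf (χ d₀) = orderOf (χ (α (h i) d₀)) from
        orderOf_eq_orderOf_iff.2 fun m => by simpa using ((h i).2 (d₀ ^ m)).symm]
      exact IsPrimitiveRoot.orderOf _
  obtain ⟨p, hp⟩ := key _ (n2 (i, j) _ (Finset.dvd_prod_of_mem _ (Finset.mem_univ _)))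
  exact (y2 (i, j) a).2 (Ideal.Quotient.eq_zero_iff_mem.1 ((hp j).trans (b p ((hp i).symm.trans
    (Ideal.Quotient.eq_zero_iff_mem.2 (y2 (i, j) a).1)))))

theorem noeth_base (α : G →* MulAut D) (β : G →* (A →+* A)) (σ : D →* A)
    (hσ : ∀ g d, β g (σ d) = σ (α g d)) (hi : ∀ n : ℤ, (n : A) = 0 ∨ IsUnit (n : A))
    (rep : ∀ x : A, ∃ n : ℤ, IsUnit (n : A) ∧ n * x ∈ Subring.closure (Set.range σ))
    (pr : ∀ x, x ≠ 0 → (Set.range fun g => β g x).Finite → ∀ u, (∀ g, u * β g x = 0) → u = 0)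
    (hN : ∀ X, (Nm α X).FiniteIndex) : IsNoetherianRing A := by
  cases subsingleton_or_nontrivial A
  · infer_instance
  obtain ⟨P, hP⟩ := Ideal.exists_maximal A
  have := (orbit_fin α β σ hσ rep hN P).to_subtype
  have : ∀ I : Set.range fun g => P.comap (β g), IsNoetherian A (A ⧸ I.1) := by
    rintro ⟨_, g, rfl⟩
    have := isSimpleModule_iff_isCoatom.2 (Ideal.comap_isMaximal_of_surjective (K := P) (β g)
      fun a => ⟨β g⁻¹ a, by rw [← RingHom.comp_apply, ← RingHom.mul_def, ← map_mul]; simp⟩).1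
    infer_instance
  refine isNoetherian_of_ker_bot (LinearMap.pi fun I : Set.range fun g => P.comap (β g) =>
    Submodule.mkQ I.1) (LinearMap.ker_eq_bot'.2 fun x hx => by_contra fun x0 => ?_)
  obtain ⟨n, n1, n2⟩ := rep x
  have hy : ∀ g, β g (n * x) ∈ P := fun g => Ideal.mul_mem_left (P.comap (β g)) _
    ((Submodule.Quotient.mk_eq_zero _).1 (congrFun hx ⟨_, g, rfl⟩))
  have y0 : n * x ≠ 0 := fun e => x0 (n1.mul_right_eq_zero.1 e)
  generalize n * x = y at *
  have fin : (Set.range fun g => β g y).Finite := by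
    obtain ⟨m, m1, m2⟩ := level σ n2
    obtain ⟨C, _, hC⟩ := fix_index α m1
    refine (Set.finite_range fun q : G ⧸ C => β q.out y).subset ?_
    rintro _ ⟨g, rfl⟩
    obtain ⟨c, hc⟩ := QuotientGroup.mk_out_eq_mul C g
    refine ⟨g, ?_⟩
    have : β c y = y := RingHom.eqOn_set_closure (f := β c) (g := RingHom.id A) (by
      rintro _ ⟨d, hd, rfl⟩
      rw [hσ, hC c c.2 d hd, RingHom.id_apply]) (m2 m dvd_rfl)
    simp only [hc, map_mul, RingHom.mul_def, RingHom.comp_apply, this]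
  have int : IsIntegral ℤ y := Subring.closure_le (t := (integralClosure ℤ A).toSubring).2 (by
    rintro _ ⟨d, rfl⟩
    exact IsIntegral.of_pow (Nat.pos_of_ne_zero (ord_ne d))
      (by rw [← map_pow, pow_orderOf_eq_one, map_one]; exact isIntegral_one)) n2
  choose! k u u1 u2 using fun z (hz : z ∈ Set.range fun g => β g y) => pireg hi hP.ne_top (y := z)
    (hz.elim fun g e => e ▸ int.map (β g).toIntAlgHom) (hz.elim fun g e => e ▸ hy g)
  obtain ⟨N, hN⟩ := Ideal.exists_pow_le_of_le_radical_of_fg (I := Ideal.span (Set.range fun g =>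
    β g y)) (J := (Ideal.span {∏ z ∈ fin.toFinset, u z}).annihilator) (Ideal.span_le.2 fun z hz =>
      ⟨k z, (Submodule.mem_annihilator_span_singleton _ _).2 (by
        rw [← Finset.mul_prod_erase _ _ (fin.mem_toFinset.2 hz), smul_eq_mul, ← mul_assoc, u2 z hz,
          zero_mul])⟩) (Submodule.fg_span fin)
  have : ∀ N, ∀ v, (∀ z ∈ Ideal.span (Set.range fun g => β g y) ^ N, z * v = 0) → v = 0 := by
    intro N
    induction N with
    | zero => exact fun v h => by simpa using h 1 (by simp)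
    | succ N ih =>
      refine fun v h => pr y y0 fin v fun g => ih _ fun z hz => ?_
      rw [mul_comm v, ← mul_assoc, h _ (by
        rw [pow_succ]; exact Ideal.mul_mem_mul hz (Ideal.subset_span ⟨g, rfl⟩))]
  have e := this N _ fun z hz => (Submodule.mem_annihilator_span_singleton _ _).1 (hN hz)
  obtain ⟨z, z1, z2⟩ := (hP.isPrime.prod_mem_iff (s := fin.toFinset) (x := u)).1 (e ▸ P.zero_mem)
  exact u1 z (fin.mem_toFinset.1 z1) z2

end base

section top
variable {G M : Type} [Group G] [AddCommGroup M]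

theorem dich (ρ : G →* Module.End ℤ M) (hM : ¬ Countable M)
    (hp : ∀ V : Submodule ℤ M, (∀ g, ∀ m ∈ V, ρ g m ∈ V) → V ≠ ⊤ → Countable V)
    (x : Module.End ℤ M) (hx : x ≠ 0) (fin : (Set.range fun g => ρ g * x * ρ g⁻¹).Finite)
    (u : Module.End ℤ M) (hu : ∀ g, u * (ρ g * x * ρ g⁻¹) = 0) : u = 0 := by
  have e : ∀ g h m, ρ g (ρ h m) = ρ (g * h) m := fun g h m => by rw [map_mul]; rfl
  let V : Submodule ℤ M := ⨆ g, LinearMap.range (ρ g * x * ρ g⁻¹)
  refine LinearMap.ker_eq_top.1 (top_unique ((show V = ⊤ from by_contra fun hV => hM ?_).ge.trans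
    (iSup_le fun g _ ⟨m, h⟩ => h ▸ LinearMap.congr_fun (hu g) m)))
  have := hp V (fun g => (iSup_le fun h _ ⟨m, a⟩ => Submodule.mem_iSup_of_mem (g * h)
    ⟨ρ g m, by simp only [← a, e, Module.End.mul_apply, mul_inv_rev, inv_mul_cancel_right]⟩ :
      V ≤ V.comap (ρ g))) hV
  have := fin.to_subtype
  let f : M →ₗ[ℤ] (Set.range fun g => ρ g * x * ρ g⁻¹) → V := LinearMap.pi fun y =>
    LinearMap.codRestrict V y.1 fun m => y.2.elim fun g h => Submodule.mem_iSup_of_mem g
      ⟨m, LinearMap.congr_fun h m⟩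
  have hf : ∀ m, m ∈ LinearMap.ker f ↔ ∀ g, ρ g (x (ρ g⁻¹ m)) = 0 := fun m => by
    simp [f, funext_iff, Subtype.ext_iff]
  refine countable_ext f.toAddMonoidHom (hp (LinearMap.ker f) (fun g m hm => (hf _).2 fun h => ?_)
    fun h => hx (LinearMap.ext fun m => ?_)) inferInstance
  · simpa only [e, map_zero, mul_inv_rev, inv_inv, mul_inv_cancel_left] using
      congrArg (ρ g) ((hf _).1 hm (g⁻¹ * h))
  · simpa using (hf m).1 (h.ge trivial) 1

/-- The ring generated by a subgroup and the inverses of integers. -/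
def rg (ρ : G →* Module.End ℤ M) (N : Subgroup G) : Subring (Module.End ℤ M) :=
  Subring.closure ({u | ∃ n : ℤ, u * n = 1} ∪ ρ '' N)

theorem inv_comm {E : Type} [Ring E] {u : E} {n : ℤ} (h : u * n = 1) (y : E) : u * y = y * u := by
  rw [← mul_one (u * y), ← h, ← Int.cast_comm, ← mul_assoc, mul_assoc u, ← Int.cast_comm,
    ← mul_assoc, h, one_mul]

/-- Conjugation. -/
def cj (ρ : G →* Module.End ℤ M) (g : G) : Module.End ℤ M →+* Module.End ℤ M where
  toFun x := ρ g * x * ρ g⁻¹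
  map_one' := by rw [mul_one, ← map_mul, mul_inv_cancel, map_one]
  map_mul' x y := by
    simp only [mul_assoc]
    rw [← mul_assoc (ρ g⁻¹), ← map_mul, inv_mul_cancel, map_one, one_mul]
  map_zero' := by simp
  map_add' x y := by rw [mul_add, add_mul]

theorem cj_mem (ρ : G →* Module.End ℤ M) {N : Subgroup G} {t : G}
    (ht : t ∈ Subgroup.normalizer (N : Set G)) : ∀ x ∈ rg ρ N, cj ρ t x ∈ rg ρ N :=
  Subring.closure_le (t := (rg ρ N).comap (cj ρ t)).2 (by
    rintro _ (⟨n, h⟩ | ⟨g, hg, rfl⟩)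
    · exact Subring.subset_closure (Or.inl ⟨n, by simpa using congrArg (cj ρ t) h⟩)
    · exact Subring.subset_closure (Or.inr ⟨_, (Subgroup.mem_normalizer_iff.1 ht g).1 hg, by
        simp [cj]⟩))

theorem rg_step (ρ : G →* Module.End ℤ M) (N : Subgroup G) (t : G)
    (ht : t ∈ Subgroup.normalizer (N : Set G)) (h : IsNoetherianRing (rg ρ N)) :
    IsNoetherianRing (rg ρ (N ⊔ Subgroup.zpowers t)) := by
  have m : ∀ g ∈ Subgroup.zpowers t, ρ g ∈ rg ρ (N ⊔ Subgroup.zpowers t) := fun g hg =>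
    Subring.subset_closure (Or.inr ⟨g, Subgroup.mem_sup_right hg, rfl⟩)
  have le : rg ρ N ≤ rg ρ (N ⊔ Subgroup.zpowers t) :=
    Subring.closure_mono (Set.union_subset_union_right _ (Set.image_mono fun _ h => Subgroup.mem_sup_left h))
  refine skew (Subring.inclusion le)
    ⟨⟨_, m t (Subgroup.mem_zpowers t)⟩, ⟨_, m t⁻¹ (inv_mem (Subgroup.mem_zpowers t))⟩,
      Subtype.ext (by simp [← map_mul]), Subtype.ext (by simp [← map_mul])⟩
    (fun a => ⟨⟨_, cj_mem ρ ht _ a.2⟩, Subtype.ext (by simp [cj, mul_assoc, ← map_mul])⟩)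
    (fun a => ⟨⟨_, cj_mem ρ (inv_mem ht) _ a.2⟩, Subtype.ext (by
      simp [cj, ← mul_assoc, ← map_mul])⟩) fun T h1 h2 h3 => top_unique fun x _ => ?_
  let T' := T.map (Subring.subtype _)
  let L : Subgroup G :=
    { carrier := {g | ρ g ∈ T' ∧ ρ g⁻¹ ∈ T'}
      one_mem' := by simp
      mul_mem' := fun a b => by
        simpa using And.intro (mul_mem a.1 b.1) (mul_mem b.2 a.2)
      inv_mem' := fun a => by simpa using a.symm }
  have h4 : rg ρ N ≤ T' := fun y hy => ⟨_, h1 ⟨y, hy⟩, rfl⟩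
  have h5 : N ⊔ Subgroup.zpowers t ≤ L := sup_le (fun g hg =>
    ⟨h4 (Subring.subset_closure (Or.inr ⟨_, hg, rfl⟩)),
      h4 (Subring.subset_closure (Or.inr ⟨_, inv_mem hg, rfl⟩))⟩)
    (Subgroup.zpowers_le.2 ⟨⟨_, h2, rfl⟩, ⟨_, h3, rfl⟩⟩)
  obtain ⟨y, y1, y2⟩ : x.1 ∈ T' := Subring.closure_le.2 (by
    rintro _ (h | ⟨g, hg, rfl⟩)
    · exact h4 (Subring.subset_closure (Or.inl h))
    · exact (h5 hg).1) x.2
  exact Subtype.ext y2 ▸ y1

open scoped IsMulCommutative in
theorem rg_base (D : Subgroup G) [D.Normal] [IsMulCommutative D] [WellFoundedLT (Subgroup D)]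
    (hN : ∀ X : Subgroup D, (Nm MulAut.conjNormal X).FiniteIndex)
    (ρ : G →* Module.End ℤ M) (hM : ¬ Countable M)
    (hp : ∀ V : Submodule ℤ M, (∀ g, ∀ m ∈ V, ρ g m ∈ V) → V ≠ ⊤ → Countable V)
    (hi : ∀ n : ℤ, (n : Module.End ℤ M) = 0 ∨ IsUnit (n : Module.End ℤ M)) :
    IsNoetherianRing (rg ρ D) := by
  have : IsMulCommutative (rg ρ D) := Subring.isMulCommutative_closure (by
    rintro _ (⟨n, h⟩ | ⟨g, hg, rfl⟩) _ (⟨k, h'⟩ | ⟨g', hg', rfl⟩)
    · exact inv_comm h _
    · exact inv_comm h _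
    · exact (inv_comm h' _).symm
    · rw [← map_mul, ← map_mul, show g * g' = g' * g from
        congrArg Subtype.val (mul_comm (⟨g, hg⟩ : D) ⟨g', hg'⟩)])
  have un : ∀ (n : ℤ) (u : Module.End ℤ M), u * n = 1 → IsUnit (n : rg ρ D) := fun n u h =>
    IsUnit.of_mul_eq_one_right ⟨u, Subring.subset_closure (Or.inl ⟨n, h⟩)⟩ (Subtype.ext h)
  let σ : D →* rg ρ D := (ρ.comp D.subtype).codRestrict _ fun d =>
    Subring.subset_closure (Or.inr ⟨d, d.2, rfl⟩)
  refine noeth_base MulAut.conjNormal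
    { toFun := fun g => (cj ρ g).restrict _ _ (cj_mem ρ (Subgroup.normalizer_eq_top D ▸ trivial))
      map_one' := RingHom.ext fun x => Subtype.ext (by simp [cj])
      map_mul' := fun g h => RingHom.ext fun x => Subtype.ext (by simp [cj, mul_assoc]) }
    σ (fun g d => Subtype.ext (((map_mul ρ _ _).trans (congrArg (· * _) (map_mul ρ _ _))).symm))
      (fun n => (hi n).imp (fun h => Subtype.ext h)
      fun h => h.exists_left_inv.elim (un n)) (fun ⟨x, hx⟩ => ?_)
    (fun x x0 fin u hu => Subtype.ext (dich ρ hM hp x.1 (fun e => x0 (Subtype.ext e))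
      ((fin.image Subtype.val).subset ?_) u.1 fun g => congrArg Subtype.val (hu g))) hN
  · induction hx using Subring.closure_induction with
    | mem x hx =>
      obtain ⟨n, h⟩ | ⟨g, hg, rfl⟩ := hx
      · exact ⟨n, un n x h, by
          convert one_mem (Subring.closure (Set.range σ)) using 1
          exact Subtype.ext ((Int.cast_comm n x).trans h)⟩
      · exact ⟨1, by simp, by
          rw [Int.cast_one, one_mul]; exact Subring.subset_closure ⟨⟨g, hg⟩, rfl⟩⟩
    | zero => exact ⟨1, by simp, by rw [Int.cast_one, one_mul]; exact zero_mem _⟩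
    | one => exact ⟨1, by simp, by rw [Int.cast_one, one_mul]; exact one_mem _⟩
    | add x y hx hy a b =>
      obtain ⟨n, a1, a2⟩ := a
      obtain ⟨k, b1, b2⟩ := b
      refine ⟨n * k, by simpa using And.intro a1 b1, ?_⟩
      convert add_mem (mul_mem (intCast_mem _ k) a2) (mul_mem (intCast_mem _ n) b2) using 1
      change _ * ((⟨x, hx⟩ : rg ρ D) + ⟨y, hy⟩) = _
      push_cast
      ring
    | neg x hx a =>
      obtain ⟨n, a1, a2⟩ := a
      exact ⟨n, a1, by
        convert neg_mem a2 using 1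
        exact mul_neg _ (⟨x, hx⟩ : rg ρ D)⟩
    | mul x y hx hy a b =>
      obtain ⟨n, a1, a2⟩ := a
      obtain ⟨k, b1, b2⟩ := b
      refine ⟨n * k, by simpa using And.intro a1 b1, ?_⟩
      convert mul_mem a2 b2 using 1
      change _ * ((⟨x, hx⟩ : rg ρ D) * ⟨y, hy⟩) = _
      push_cast
      ring
  · rintro _ ⟨g, rfl⟩
    exact ⟨_, ⟨g, rfl⟩, rfl⟩

end top

section fin
open scoped IsMulCommutative
variable {G : Type} [Group G] (D : Subgroup G) [D.Normal] [IsMulCommutative D]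
  [WellFoundedLT (Subgroup D)] (hsol : Group.IsSolvable (G ⧸ D))
  (hmax : ∀ H : Subgroup (G ⧸ D), H.FG)
  (hN : ∀ X : Subgroup D, (Nm MulAut.conjNormal X).FiniteIndex)
include hsol hmax hN

theorem cnt2 (M : Type) [AddCommGroup M] [Module (MonoidAlgebra ℤ G) M]
    [IsArtinian (MonoidAlgebra ℤ G) M]
    (hp : ∀ V : Submodule (MonoidAlgebra ℤ G) M, V ≠ ⊤ → Countable V)
    (hi : ∀ n : ℤ, (∀ x : M, n • x = 0) ∨ Function.Bijective fun x : M => n • x) :
    Countable M := by
  by_contra hM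
  let ρ : G →* Module.End ℤ M :=
    (Module.toModuleEnd ℤ M (S := MonoidAlgebra ℤ G)).toMonoidHom.comp (MonoidAlgebra.of ℤ G)
  have hi' : ∀ n : ℤ, (n : Module.End ℤ M) = 0 ∨ IsUnit (n : Module.End ℤ M) := fun n =>
    (hi n).imp (fun h => LinearMap.ext h) fun h => (Module.End.isUnit_iff _).2 h
  have := poly_ind D hsol hmax (fun N => IsNoetherianRing (rg ρ N)) (rg_base D hN ρ hM
    (fun V h e => hp (toSub V.toAddSubgroup h) fun a => e (top_unique fun x _ => a.ge trivial)) hi')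
    fun N t _ => rg_step ρ N t
  have : Countable G := by
    obtain ⟨ι, _, φ, hφ⟩ := Group.fg_iff_exists_freeGroup_hom_surjective_finite.1 ⟨hmax ⊤⟩
    have := hφ.countable
    have := countable_min D
    exact (Subgroup.groupEquivQuotientProdSubgroup (s := D)).countable_iff.2 inferInstance
  have : Countable (rg ρ ⊤) := by
    have h : ({u | ∃ n : ℤ, u * n = 1} ∪ ρ '' (⊤ : Subgroup G) : Set (Module.End ℤ M)).Countable :=
      .union (Set.ofPred_exists _ ▸ Set.countable_iUnion fun n => Set.Subsingleton.countable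
        fun u a v b => left_inv_eq_right_inv a ((Int.cast_comm n v).trans b))
        ((Set.to_countable _).image _)
    have := Algebra.cardinalMk_adjoin_le ℤ
      ({u | ∃ n : ℤ, u * n = 1} ∪ ρ '' (⊤ : Subgroup G) : Set (Module.End ℤ M))
    rw [Algebra.adjoin_int] at this
    exact Cardinal.mk_le_aleph0_iff.1 (this.trans
      (sup_le (sup_le (by simp) (Cardinal.le_aleph0_iff_set_countable.2 h)) le_rfl))
  have : IsArtinian (rg ρ ⊤) M := StrictMono.wellFoundedLT
    (f := fun V : Submodule (rg ρ ⊤) M => toSub (G := G) V.toAddSubgroup fun g x hx =>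
      V.smul_mem ⟨ρ g, Subring.subset_closure (Or.inr ⟨g, trivial, rfl⟩)⟩ hx) fun _ _ h => h
  exact hM (countable_art (rg ρ ⊤) M)

theorem cnt1 (M : Type) [AddCommGroup M] [Module (MonoidAlgebra ℤ G) M]
    [IsArtinian (MonoidAlgebra ℤ G) M]
    (hp : ∀ V : Submodule (MonoidAlgebra ℤ G) M, V ≠ ⊤ → Countable V) : Countable M := by
  by_contra hM
  let φ : ℤ → M →ₗ[MonoidAlgebra ℤ G] M := fun n => n • LinearMap.id
  have k1 : ∀ n, φ n ≠ 0 → Countable (LinearMap.ker (φ n)) := fun n h =>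
    hp _ fun e => h (LinearMap.ker_eq_top.1 e)
  have k2 : ∀ n, φ n ≠ 0 → ∀ y : M, ∃ x, n • x = y := fun n h => (LinearMap.range_eq_top (f := φ n)).1
    (by_contra fun e => hM (countable_ext (φ n).toAddMonoidHom (k1 n h) (hp _ e)))
  have k3 : ∀ n k, φ n ≠ 0 → φ k ≠ 0 → φ (n * k) ≠ 0 := fun n k a b e =>
    a (LinearMap.ext fun y => by
      obtain ⟨x, rfl⟩ := k2 k b y
      simpa [φ, mul_smul] using LinearMap.congr_fun e x)
  let T : Submodule (MonoidAlgebra ℤ G) M :=
    { carrier := {x | x = 0 ∨ ∃ n, φ n ≠ 0 ∧ n • x = 0}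
      zero_mem' := Or.inl rfl
      add_mem' := by
        rintro x y (rfl | ⟨n, a, b⟩) (rfl | ⟨k, c, d⟩)
        · simp
        · exact Or.inr ⟨k, c, by simpa⟩
        · exact Or.inr ⟨n, a, by simpa⟩
        · exact Or.inr ⟨n * k, k3 n k a c, by
            rw [smul_add, mul_smul n k y, d, mul_comm, mul_smul, b]; simp⟩
      smul_mem' := by
        rintro r x (rfl | ⟨n, a, b⟩)
        · simp
        · exact Or.inr ⟨n, a, by rw [smul_comm, b, smul_zero]⟩ }
  have hT : Countable T := ((Set.countable_singleton (0 : M)).union (Set.countable_iUnion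
    fun n : {n // φ n ≠ 0} => (k1 n.1 n.2 : (LinearMap.ker (φ n.1) : Set M).Countable))).mono
    fun x hx => hx.imp id fun ⟨n, a, b⟩ => Set.mem_iUnion.2 ⟨⟨n, a⟩, b⟩
  have := cnt2 D hsol hmax hN (M ⧸ T) (fun V hV => by
    have := hp (V.comap T.mkQ) fun e => hV (Submodule.comap_injective_of_surjective
      T.mkQ_surjective (e.trans (Submodule.comap_top _).symm))
    exact (LinearMap.submoduleComap_surjective_of_surjective _ V T.mkQ_surjective).countable)
    fun n => by
      by_cases h : φ n = 0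
      · refine Or.inl fun x => ?_
        obtain ⟨x, rfl⟩ := T.mkQ_surjective x
        rw [← map_zsmul, show n • x = 0 from LinearMap.congr_fun h x, map_zero]
      refine Or.inr ⟨(injective_iff_map_eq_zero (zsmulAddGroupHom (α := M ⧸ T) n)).2 fun x hx => ?_, fun y => ?_⟩
      · obtain ⟨x, rfl⟩ := T.mkQ_surjective x
        obtain e | ⟨k, a, b⟩ : n • x ∈ T := (Submodule.Quotient.mk_eq_zero T).1
          ((map_zsmul T.mkQ n x).trans hx)
        · exact (Submodule.Quotient.mk_eq_zero T).2 (Or.inr ⟨n, h, e⟩)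
        · exact (Submodule.Quotient.mk_eq_zero T).2
            (Or.inr ⟨k * n, k3 k n a h, by rwa [mul_smul]⟩)
      · obtain ⟨y, rfl⟩ := T.mkQ_surjective y
        obtain ⟨x, rfl⟩ := k2 n h y
        exact ⟨T.mkQ x, (map_zsmul _ _ _).symm⟩
  exact hM (countable_ext T.mkQ.toAddMonoidHom
    (Function.Injective.countable
      (f := fun x => (⟨x.1, (Submodule.Quotient.mk_eq_zero T).1 x.2⟩ : T))
      fun x y h => Subtype.ext (Subtype.mk.inj h)) inferInstance)

theorem cnt (M : Type) [AddCommGroup M] [Module (MonoidAlgebra ℤ G) M]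
    [IsArtinian (MonoidAlgebra ℤ G) M] : Countable M := by
  by_contra hM
  obtain ⟨V, h1, h2⟩ := WellFounded.has_min wellFounded_lt
    {V : Submodule (MonoidAlgebra ℤ G) M | ¬ Countable V}
    ⟨⊤, fun h => hM (Submodule.topEquiv.toEquiv.countable_iff.1 h)⟩
  refine h1 (cnt1 D hsol hmax hN V fun W hW => ?_)
  exact (Submodule.equivMapOfInjective _ V.injective_subtype W).toEquiv.countable_iff.2
    (not_not.1 fun h => h2 _ h ((Submodule.map_strictMono_of_injective V.injective_subtype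
      hW.lt_top).trans_eq (Submodule.map_subtype_top V)))

end fin

end Pool.Agent.P.MP_90339f_al.H2
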