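import Mathlib
import Pool.Agent.P.MP_90339f_al.Zorn

/-! Uncountable uniserial Artinian modules inside a module of functions on a group. -/

set_option autoImplicit false
set_option linter.unusedSectionVars false

namespace Pool.Agent.P.MP_90339f_al.H2

open scoped Classical

variable {R Q K : Type} [Ring R] [Group Q] [Field K]

/-- Right translation. -/
def tr (g : Q) (f : Q → K) : Q → K := fun y => f (y * g)

/-- The indicator of a right coset. -/
noncomputable def ci (H : Subgroup Q) (z : Q) : Q → K := fun y => if y * z⁻¹ ∈ H then 1 else 0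

theorem tr_mul (g : Q) (f f' : Q → K) : tr g (f * f') = tr g f * tr g f' := rfl

theorem tr_sub (g : Q) (f f' : Q → K) : tr g (f - f') = tr g f - tr g f' := rfl

theorem tr_tr (g h : Q) (f : Q → K) : tr g (tr h f) = tr (g * h) f := by
  funext y; simp [tr, mul_assoc]

theorem tr_one (f : Q → K) : tr 1 f = f := by funext y; simp [tr]

theorem tr_ci (H : Subgroup Q) (g z : Q) : tr g (ci H z : Q → K) = ci H (z * g⁻¹) := by
  funext y; simp [tr, ci, mul_assoc]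

variable [Module R (Q → K)]

variable (R Q K) in
/-- The data of the construction. -/
structure Setup where
  E : Submodule R (Q → K)
  B : Subring (Q → K)
  H : ℕ → Subgroup Q
  anti : Antitone H
  fin : ∀ j, (H j).relIndex (H 0) ≠ 0
  inf : ∀ j, ∃ k, ∃ h ∈ H j, h ∉ H k
  supp : ∀ f, (∀ y, y ∉ H 0 → f y = 0) → f ∈ E
  hB : ∀ V ≤ E, ∀ b ∈ B, ∀ f ∈ V, b * f ∈ V
  hT : ∀ V ≤ E, ∀ g, ∀ f ∈ V, tr g f ∈ V
  hR : ∀ (r : R) w (T : AddSubgroup (Q → K)), (∀ b ∈ B, ∀ g, b * tr g w ∈ T) → r • w ∈ T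
  hI : ∀ j z, ci (H j) z ∈ B
  hZ : ∀ b ∈ B, ∀ g, ∃ j, ∃ b' ∈ B, ∀ y, y * g ∈ H 0 →
    (∀ h ∈ H j, b y = 0 → b (h * y) = 0) ∧ (b y ≠ 0 → b' y * b y = 1)

namespace Setup

variable (S : Setup R Q K)

/-- Special functions. -/
def Sp (f : Q → K) : Prop :=
  (∀ y, y ∉ S.H 0 → f y = 0) ∧ ∀ h, (∀ j, h ∈ S.H j) → ∀ y, f (h * y) = f y

/-- Every element lies in a cyclic submodule with a special generator. -/
def Gen (U : Submodule R (Q → K)) : Prop :=
  U ≤ S.E ∧ ∀ x ∈ U, ∃ s ∈ U, S.Sp s ∧ x ∈ Submodule.span R {s}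

/-- `w` is concentrated at the point given by the nested cosets `c`. -/
structure Near (U : Submodule R (Q → K)) (c : ℕ → ℕ × Q) (w : Q → K) : Prop where
  sp : S.Sp w
  lev : ∀ j, ∃ n, j ≤ (c n).1 ∧ (c n).2 ∈ S.H 0
  off : ∀ n, (1 - ci (S.H (c n).1) (c n).2) * w ∈ U
  mv : ∀ g, (∃ n, ∀ y, y * (c n).2⁻¹ ∈ S.H (c n).1 → y * g * (c n).2⁻¹ ∉ S.H (c n).1) ∨
    tr g w - w ∈ U

variable {S}

theorem simple_top {U V : Submodule R (Q → K)} {c : ℕ → ℕ × Q} {w : Q → K} (hU : U ≤ S.E)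
    (hw : S.Near U c w) (hV : V ≤ U ⊔ Submodule.span R {w}) (hVU : ¬ V ≤ U) :
    ∃ u ∈ U, w + u ∈ V := by
  have hVE : V ≤ S.E :=
    hV.trans (sup_le hU ((Submodule.span_singleton_le_iff_mem _ _).2 (S.supp _ hw.sp.1)))
  obtain ⟨x, hxV, hxU⟩ := SetLike.not_le_iff_exists.mp hVU
  let J : Ideal S.B :=
    { carrier := {b | b.1 * x ∈ U}
      zero_mem' := by simp
      add_mem' := fun ha hb => by simpa [add_mul] using U.add_mem ha hb
      smul_mem' := fun a b hb => by simpa [mul_assoc] using S.hB U hU _ a.2 _ hb }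
  obtain ⟨P, hP, hJP⟩ := Ideal.exists_le_maximal J fun e =>
    hxU (by simpa [J] using (J.eq_top_iff_one.1 e : (1 : S.B).1 * x ∈ U))
  obtain ⟨g₀, hg₀⟩ : ∃ g₀, ∀ g, (∃ β ∉ P, β.1 * tr g w ∈ U) ∨ tr g w - tr g₀ w ∈ U := by
    by_cases h : ∃ g₀, ¬ ∃ β ∉ P, β.1 * tr g₀ w ∈ U
    · obtain ⟨g₀, h0⟩ := h
      refine ⟨g₀, fun g => or_iff_not_imp_left.2 fun h1 => ?_⟩
      rcases hw.mv (g₀⁻¹ * g) with ⟨n, hn⟩ | h2
      · exfalso
        let e : S.B := ⟨ci (S.H (c n).1) ((c n).2 * g₀⁻¹), S.hI _ _⟩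
        refine hP.ne_top (P.eq_top_iff_one.2 ?_)
        rw [← sub_add_cancel 1 e]
        refine P.add_mem (by_contra fun h3 => h0 ⟨_, h3, ?_⟩) (by_contra fun h3 => h1 ⟨_, h3, ?_⟩)
        · have := S.hT U hU g₀ _ (hw.off n)
          rwa [tr_mul, tr_sub, tr_ci] at this
        · convert S.hB U hU _ e.2 _ (S.hT U hU g _ (hw.off n)) using 1
          funext y
          have := hn (y * g₀)
          simp only [tr, ci, e, Pi.mul_apply, Pi.sub_apply, Pi.one_apply, mul_inv_rev, inv_inv,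
            mul_assoc, mul_inv_cancel_left] at this ⊢
          split_ifs with a1 a2
          · exact absurd a2 (this a1)
          all_goals simp
      · simpa [tr_sub, tr_tr] using S.hT U hU g₀ _ h2
    · exact ⟨1, fun g => Or.inl (not_not.1 fun h1 => h ⟨g, h1⟩)⟩
  let T : AddSubgroup (Q → K) :=
    { carrier := {z | ∃ β ∉ P, ∃ b : S.B, β.1 * z - b.1 * tr g₀ w ∈ U}
      zero_mem' := ⟨1, hP.isPrime.one_notMem, 0, by simp⟩
      add_mem' := by
        rintro z z' ⟨β, h1, b, h2⟩ ⟨β', h3, b', h4⟩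
        refine ⟨β * β', hP.isPrime.mul_notMem h1 h3, β' * b + β * b', ?_⟩
        convert U.add_mem (S.hB U hU _ β'.2 _ h2) (S.hB U hU _ β.2 _ h4) using 1
        push_cast
        ring
      neg_mem' := by
        rintro z ⟨β, h1, b, h2⟩
        refine ⟨β, h1, -b, ?_⟩
        convert U.neg_mem h2 using 1
        push_cast
        ring }
  obtain ⟨β, hβ, b, hb⟩ : x ∈ T := by
    obtain ⟨u, hu, _, hr, rfl⟩ := Submodule.mem_sup.mp (hV hxV)
    obtain ⟨r, rfl⟩ := Submodule.mem_span_singleton.mp hr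
    refine T.add_mem ⟨1, hP.isPrime.one_notMem, 0, by simpa using hu⟩
      (S.hR r w T fun b hb g => ?_)
    rcases hg₀ g with ⟨β, h1, h2⟩ | h
    · exact ⟨β, h1, 0, by simpa [mul_left_comm] using S.hB U hU _ hb _ h2⟩
    · exact ⟨1, hP.isPrime.one_notMem, ⟨b, hb⟩, by simpa [mul_sub] using S.hB U hU _ hb _ h⟩
  obtain ⟨j, b', hb', hz⟩ := S.hZ _ b.2 g₀
  obtain ⟨n, hn, hn0⟩ := hw.lev j
  have off := S.hT U hU g₀ _ (hw.off n)
  have key : ∀ y, y * g₀ * (c n).2⁻¹ ∈ S.H (c n).1 → y * g₀ ∈ S.H 0 ∧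
      (b.1 y = 0 ↔ b.1 ((c n).2 * g₀⁻¹) = 0) := fun y hy => by
    have h0 : y * g₀ ∈ S.H 0 := by simpa using mul_mem (S.anti (Nat.zero_le _) hy) hn0
    refine ⟨h0, fun e => ?_, fun e => ?_⟩
    · simpa [mul_assoc] using (hz y h0).1 _ (inv_mem (S.anti hn hy)) e
    · simpa [mul_assoc] using (hz _ (by simpa using hn0)).1 _ (S.anti hn hy) e
  by_cases h0 : b.1 ((c n).2 * g₀⁻¹) = 0
  · refine absurd (hJP (show β.1 * x ∈ U from ?_)) hβ
    convert U.add_mem hb (S.hB U hU _ b.2 _ off) using 1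
    funext y
    simp only [tr, ci, Pi.mul_apply, Pi.sub_apply, Pi.add_apply, Pi.one_apply]
    split_ifs with a
    · simp [(key y a).2.2 h0]
    · ring
  · refine ⟨tr g₀⁻¹ (b' * (β.1 * x)) - w, ?_, by
      simpa using S.hT V hVE _ _ (S.hB V hVE _ hb' _ (S.hB V hVE _ β.2 _ hxV))⟩
    convert S.hT U hU g₀⁻¹ _ (U.add_mem (S.hB U hU _ hb' _ hb)
      (S.hB U hU _ (S.B.sub_mem (S.B.mul_mem hb' b.2) S.B.one_mem) _ off)) using 1
    funext y
    obtain ⟨y, rfl⟩ := (Group.mulRight_bijective g₀).2 y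
    simp only [tr, ci, Pi.mul_apply, Pi.sub_apply, Pi.add_apply, Pi.one_apply,
      mul_inv_cancel_right]
    split_ifs with a
    · have := (hz y (key y a).1).2 fun e => h0 ((key y a).2.1 e)
      linear_combination w (y * g₀) * this
    · ring

theorem chain_sum {U : Submodule R (Q → K)} (hU : Chain U) {ι : Type} (s : Finset ι)
    (hs : s.Nonempty) (x : ι → Q → K) (hx : ∀ i, x i ∈ U) :
    ∃ i, ∑ j ∈ s, x j ∈ Submodule.span R {x i} := by
  induction hs using Finset.Nonempty.cons_induction with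
  | singleton a => exact ⟨a, by simp⟩
  | cons a s ha hs ih =>
    obtain ⟨i, hi⟩ := ih
    rw [Finset.sum_cons]
    rcases hU (Submodule.span R {x a}) (Submodule.span R {x i})
      ((Submodule.span_singleton_le_iff_mem _ _).mpr (hx a))
      ((Submodule.span_singleton_le_iff_mem _ _).mpr (hx i)) with h | h
    · exact ⟨i, Submodule.add_mem _ (h (Submodule.mem_span_singleton_self _)) hi⟩
    · exact ⟨a, Submodule.add_mem _ (Submodule.mem_span_singleton_self _) (h hi)⟩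

theorem exists_gen {U : Submodule R (Q → K)} (hU : Chain U) (hG : S.Gen U) {x : Q → K}
    (hx : x ∈ U) (j : ℕ) {z : Q} (hz : z ∈ S.H 0) :
    ∃ s ∈ U, S.Sp s ∧ x ∈ Submodule.span R {ci (S.H j) z * s} := by
  obtain ⟨s, hs, sp, hx⟩ := hG.2 x hx
  have : ((S.H j).subgroupOf (S.H 0)).FiniteIndex := ⟨S.fin j⟩
  have := Fintype.ofFinite (S.H 0 ⧸ (S.H j).subgroupOf (S.H 0))
  obtain ⟨q, hq⟩ := chain_sum hU (Finset.univ : Finset (S.H 0 ⧸ (S.H j).subgroupOf (S.H 0)))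
    Finset.univ_nonempty (fun q => ci (S.H j) (q.out.1)⁻¹ * s)
    fun q => S.hB U hG.1 _ (S.hI _ _) _ hs
  have e : ∑ q : S.H 0 ⧸ (S.H j).subgroupOf (S.H 0), ci (S.H j) (q.out.1)⁻¹ * s = s := by
    funext y
    by_cases hy : y ∈ S.H 0
    · have : ∀ q : S.H 0 ⧸ (S.H j).subgroupOf (S.H 0), y * q.out.1 ∈ S.H j ↔
          (QuotientGroup.mk (⟨y, hy⟩ : S.H 0)⁻¹) = q := fun q => by
        conv_rhs => rw [← q.out_eq', QuotientGroup.eq]
        simp [Subgroup.mem_subgroupOf]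
      simp [ci, this]
    · simp [sp.1 y hy]
  rw [e] at hq
  have hg : z⁻¹ * (q.out.1)⁻¹ ∈ S.H 0 := mul_mem (inv_mem hz) (inv_mem q.out.2)
  refine ⟨tr (z⁻¹ * (q.out.1)⁻¹) s, S.hT U hG.1 _ _ hs, ⟨fun y hy => sp.1 _ fun h => hy ?_,
    fun h hh y => by simp only [tr, mul_assoc h, sp.2 h hh]⟩, ?_⟩
  · simpa [mul_assoc] using mul_mem h (inv_mem hg)
  refine (Submodule.span_singleton_le_iff_mem _ _).2 ((Submodule.span_singleton_le_iff_mem _ _).2
    ?_ hq) hx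
  convert S.hT _ (((Submodule.span_singleton_le_iff_mem _ _).2
    (S.hB U hG.1 _ (S.hI j z) _ (S.hT U hG.1 (z⁻¹ * (q.out.1)⁻¹) _ hs))).trans hG.1)
    (q.out.1 * z) _ (Submodule.mem_span_singleton_self _) using 1
  simp [tr_mul, tr_ci, tr_tr, tr_one, mul_assoc]

variable (S) in
theorem point [Countable Q] : ∃ (c : ℕ → ℕ × Q) (z : ℕ → Q), (∀ n, n ≤ (c n).1 ∧ (c n).2 ∈ S.H 0) ∧
    (∀ n y, y * (c (n + 1)).2⁻¹ ∈ S.H (c (n + 1)).1 → y * (c n).2⁻¹ ∈ S.H (c n).1) ∧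
    (∀ n y, y * (z n)⁻¹ ∈ S.H (c (n + 1)).1 →
      y * (c n).2⁻¹ ∈ S.H (c n).1 ∧ y * (c (n + 1)).2⁻¹ ∉ S.H (c (n + 1)).1) ∧
    ∀ g, ∃ n, (∀ y, y * (c n).2⁻¹ ∈ S.H (c n).1 → y * g * (c n).2⁻¹ ∉ S.H (c n).1) ∨
      ∀ y, y * (c n).2⁻¹ ∈ S.H (c n).1 → ∀ j, y * g * y⁻¹ ∈ S.H j := by
  have step : ∀ (p : ℕ × Q) (g : Q), ∃ p' : ℕ × Q, p.1 < p'.1 ∧ p'.2 * p.2⁻¹ ∈ S.H p.1 ∧
      (∃ h ∈ S.H p.1, h ∉ S.H p'.1) ∧
      ((∀ y, y * p'.2⁻¹ ∈ S.H p'.1 → y * g * p'.2⁻¹ ∉ S.H p'.1) ∨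
        ∀ y, y * p'.2⁻¹ ∈ S.H p'.1 → ∀ j, y * g * y⁻¹ ∈ S.H j) := by
    rintro ⟨j, y₀⟩ g
    obtain ⟨k, h, h1, h2⟩ := S.inf j
    by_cases hc : ∀ y, y * y₀⁻¹ ∈ S.H j → ∀ i, y * g * y⁻¹ ∈ S.H i
    · exact ⟨(max (j + 1) k, y₀), by simp, by simp, ⟨h, h1, fun a => h2 (S.anti (by simp) a)⟩,
        Or.inr fun y hy => hc y (S.anti (by simp) hy)⟩
    · push Not at hc
      obtain ⟨y, a1, i, a2⟩ := hc
      refine ⟨(max (max (j + 1) k) i, y), by simp, a1, ⟨h, h1, fun a => h2 (S.anti (by simp) a)⟩,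
        Or.inl fun x a3 a4 => a2 (S.anti (le_max_right (max (j + 1) k) i) ?_)⟩
      have : y * g * y⁻¹ = (x * y⁻¹)⁻¹ * (x * g * y⁻¹) := by group
      exact this ▸ mul_mem (inv_mem a3) a4
  choose F f1 f2 f3 f4 using step
  choose h h1 h2 using f3
  obtain ⟨e, he⟩ := exists_surjective_nat Q
  let c : ℕ → ℕ × Q := fun n => Nat.rec (0, 1) (fun n p => F p (e n)) n
  have hc : ∀ n, c (n + 1) = F (c n) (e n) := fun n => rfl
  refine ⟨c, fun n => h (c n) (e n) * (c (n + 1)).2, fun n => ?_, fun n y hy => ?_,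
    fun n y hy => ⟨?_, fun a => h2 (c n) (e n) ?_⟩, fun g => ?_⟩
  · induction n with
    | zero => exact ⟨le_rfl, one_mem _⟩
    | succ n ih =>
      exact ⟨ih.1.trans_lt (f1 _ _), by
        simpa using mul_mem (S.anti (Nat.zero_le _) (f2 (c n) (e n))) ih.2⟩
  · simpa [hc, mul_assoc] using mul_mem (S.anti (f1 _ _).le hy) (f2 (c n) (e n))
  · simpa [hc, mul_assoc] using
      mul_mem (mul_mem (S.anti (f1 _ _).le hy) (h1 (c n) (e n))) (f2 (c n) (e n))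
  · simpa [hc, mul_assoc] using mul_mem (inv_mem hy) a
  · obtain ⟨n, rfl⟩ := he g
    exact ⟨n + 1, f4 _ _⟩

theorem exists_w [Countable Q] {U : Submodule R (Q → K)} (hU : Chain U) (hG : S.Gen U)
    (hc : Countable U) : ∃ c w, S.Near U c w ∧ w ∉ U ∧
      ∀ V ≤ S.E, ∀ u ∈ U, w + u ∈ V → U ≤ V := by
  by_cases h0 : U = ⊥
  · subst h0
    refine ⟨fun n => (n, 1), ci (⨅ j, S.H j) 1, ⟨⟨fun y hy => if_neg fun h => hy ?_,
      fun h hh y => ?_⟩, fun j => ⟨j, le_rfl, one_mem _⟩, fun n => ?_, fun g => ?_⟩, fun h => ?_,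
      fun V _ _ _ _ => bot_le⟩
    · simpa using Subgroup.mem_iInf.1 h 0
    · simp only [ci, mul_assoc, Subgroup.mul_mem_cancel_left _ (Subgroup.mem_iInf.2 hh)]
    · rw [Submodule.mem_bot]
      funext y
      by_cases h : y ∈ ⨅ j, S.H j
      · simp [ci, Subgroup.mem_iInf.1 h n]
      · simp [ci, h]
    · by_cases h : g ∈ ⨅ j, S.H j
      · refine Or.inr ((Submodule.mem_bot _).2 (funext fun y => ?_))
        simp only [tr, ci, Pi.sub_apply, inv_one, mul_one, Subgroup.mul_mem_cancel_right _ h,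
          sub_self, Pi.zero_apply]
      · obtain ⟨n, hn⟩ := not_forall.1 (Subgroup.mem_iInf.not.1 h)
        exact Or.inl ⟨n, fun y a1 a2 => hn (by simpa using mul_mem (inv_mem a1) a2)⟩
    · simpa [ci] using congrFun ((Submodule.mem_bot _).1 h) 1
  obtain ⟨c, z, c1, c2, c3, c4⟩ := S.point
  have nest : ∀ y n m, n ≤ m → y * (c m).2⁻¹ ∈ S.H (c m).1 → y * (c n).2⁻¹ ∈ S.H (c n).1 :=
    fun y n m h => by
      induction h with
      | refl => exact id
      | step _ ih => exact fun a => ih (c2 _ _ a)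
  have shell : ∀ y i, y * (z i)⁻¹ ∈ S.H (c (i + 1)).1 → ∀ n,
      y * (c n).2⁻¹ ∈ S.H (c n).1 ↔ n ≤ i := fun y i h n =>
    ⟨fun a => by_contra fun b => (c3 i y h).2 (nest y _ _ (by omega) a),
      fun a => nest y _ _ a (c3 i y h).1⟩
  have z0 : ∀ y i, y * (z i)⁻¹ ∈ S.H (c (i + 1)).1 → y ∈ S.H 0 := fun y i h => by
    simpa using mul_mem (S.anti (Nat.zero_le _) (c3 i y h).1) (c1 i).2
  obtain ⟨e, he⟩ := exists_surjective_nat (U × U)
  have pick : ∀ i, ∃ v ∈ U, S.Sp v ∧ (e i).2.1 ∈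
      Submodule.span R {ci (S.H (c (i + 1)).1) (z i) * (v + (e i).1.1)} := fun i => by
    obtain ⟨s, hs, sp, hx⟩ := exists_gen hU hG (e i).2.2 (c (i + 1)).1 (z0 (z i) i (by simp))
    by_cases h : (e i).2.1 ∈ Submodule.span R {ci (S.H (c (i + 1)).1) (z i) * (e i).1.1}
    · exact ⟨0, U.zero_mem, ⟨fun _ _ => rfl, fun _ _ _ => rfl⟩, by rwa [zero_add]⟩
    refine ⟨s, hs, sp, (Submodule.span_singleton_le_iff_mem _ _).2 ?_ hx⟩
    rcases hU _ _ ((Submodule.span_singleton_le_iff_mem _ _).2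
      (S.hB U hG.1 _ (S.hI (c (i + 1)).1 (z i)) _ (U.add_mem hs (e i).1.2)))
      ((Submodule.span_singleton_le_iff_mem _ _).2
      (S.hB U hG.1 _ (S.hI (c (i + 1)).1 (z i)) _ (e i).1.2)) with a | a
    · refine absurd ((Submodule.span_singleton_le_iff_mem _ _).2 ?_ hx) h
      simpa [mul_add] using Submodule.sub_mem _ (a (Submodule.mem_span_singleton_self _))
        (Submodule.mem_span_singleton_self _)
    · simpa [mul_add] using Submodule.sub_mem _ (Submodule.mem_span_singleton_self _)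
        (a (Submodule.mem_span_singleton_self _))
  choose v v1 v2 v3 using pick
  let w : Q → K := fun y => if h : ∃ i, y * (z i)⁻¹ ∈ S.H (c (i + 1)).1 then v h.choose y else 0
  have uniq : ∀ y i k, y * (z i)⁻¹ ∈ S.H (c (i + 1)).1 → y * (z k)⁻¹ ∈ S.H (c (k + 1)).1 →
      i = k := fun y i k a b =>
    le_antisymm ((shell y k b i).1 ((shell y i a i).2 le_rfl))
      ((shell y i a k).1 ((shell y k b k).2 le_rfl))
  have w1 : ∀ y i, y * (z i)⁻¹ ∈ S.H (c (i + 1)).1 → w y = v i y := fun y i h => by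
    have h' : ∃ i, y * (z i)⁻¹ ∈ S.H (c (i + 1)).1 := ⟨i, h⟩
    simp only [w, dif_pos h']
    rw [uniq y _ _ h'.choose_spec h]
  have w0 : ∀ y, (∀ i, y * (z i)⁻¹ ∉ S.H (c (i + 1)).1) → w y = 0 := fun y h =>
    dif_neg (not_exists.2 h)
  have sp : S.Sp w := ⟨fun y hy => w0 y fun i h => hy (z0 y i h), fun h hh y => by
    by_cases a : ∃ i, y * (z i)⁻¹ ∈ S.H (c (i + 1)).1
    · obtain ⟨i, a⟩ := a
      rw [w1 y i a, w1 _ i (by rw [mul_assoc]; exact mul_mem (hh _) a), (v2 i).2 h hh]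
    · rw [w0 y (not_exists.1 a), w0 _ fun i b => a ⟨i, ?_⟩]
      rwa [mul_assoc, Subgroup.mul_mem_cancel_left _ (hh _)] at b⟩
  have off : ∀ n, (1 - ci (S.H (c n).1) (c n).2) * w ∈ U := fun n => by
    convert U.sum_mem fun i (_ : i ∈ Finset.range n) =>
      S.hB U hG.1 _ (S.hI (c (i + 1)).1 (z i)) _ (v1 i) using 1
    funext y
    simp only [ci, Finset.sum_apply, Pi.mul_apply, Pi.sub_apply, Pi.one_apply]
    by_cases a : ∃ i, y * (z i)⁻¹ ∈ S.H (c (i + 1)).1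
    · obtain ⟨i, a⟩ := a
      rw [w1 y i a, Finset.sum_congr rfl (g := fun k => if i = k then v i y else 0) fun k _ => by
        by_cases b : i = k
        · simp [← b, a]
        · rw [if_neg b, if_neg fun b' => b (uniq y _ _ a b'), zero_mul], Finset.sum_ite_eq]
      by_cases b : n ≤ i
      · simp [(shell y i a n).2 b, b]
      · simp [(shell y i a n).not.2 b, not_le.1 b]
    · simp [w0 y (not_exists.1 a), not_exists.1 a]
  have key : ∀ V ≤ S.E, ∀ u ∈ U, w + u ∈ V → U ≤ V := fun V hV u hu h x hx => by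
    obtain ⟨i, hi⟩ := he (⟨u, hu⟩, ⟨x, hx⟩)
    have h3 := v3 i
    rw [hi] at h3
    refine (Submodule.span_singleton_le_iff_mem _ _).2 ?_ h3
    convert S.hB V hV _ (S.hI (c (i + 1)).1 (z i)) _ h using 1
    funext y
    simp only [ci, Pi.mul_apply, Pi.add_apply]
    split_ifs with a
    · rw [w1 y i a]
    · simp
  refine ⟨c, w, ⟨sp, fun j => ⟨j, c1 j⟩, off, fun g => ?_⟩,
    fun h => h0 (le_bot_iff.1 (key ⊥ bot_le (-w) (U.neg_mem h) (by simp))), key⟩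
  obtain ⟨n, h | h⟩ := c4 g
  · exact Or.inl ⟨n, h⟩
  refine Or.inr ?_
  convert U.sub_mem (S.hT U hG.1 g _ (off n)) (off n) using 1
  funext y
  simp only [tr, ci, Pi.mul_apply, Pi.sub_apply, Pi.one_apply]
  by_cases a : y * (c n).2⁻¹ ∈ S.H (c n).1
  · have e1 := sp.2 _ (h y a) y
    have e2 := mul_mem (h y a (c n).1) a
    simp only [mul_assoc, inv_mul_cancel, mul_one, inv_mul_cancel_left] at e1 e2
    simp [a, e1, e2, mul_assoc]
  · rw [if_neg a, if_neg fun b => a ?_]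
    · ring
    · simpa [mul_assoc] using mul_mem (inv_mem (h _ b (c n).1)) b

theorem main [Countable Q] (S : Setup R Q K) :
    ∃ U : Submodule R (Q → K), IsArtinian R U ∧ ¬ Countable U := by
  obtain ⟨m, -, hm⟩ := zorn_le_nonempty₀ {U : Submodule R (Q → K) | Good U ∧ S.Gen U}
    (fun c hc hch y hy => ⟨sSup c, ⟨good_sSup (fun U hU => (hc hU).1) hch ⟨y, hy⟩,
      sSup_le fun U hU => (hc hU).2.1, fun x hx => by
        obtain ⟨U, hU, hx⟩ := (Submodule.mem_sSup_of_directed ⟨y, hy⟩ hch.directedOn).1 hx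
        obtain ⟨s, s1, s2⟩ := (hc hU).2.2 x hx
        exact ⟨s, le_sSup hU s1, s2⟩⟩, fun z hz => le_sSup hz⟩) ⊥
    ⟨good_bot, bot_le, fun x hx => ⟨0, Submodule.zero_mem _, ⟨fun _ _ => rfl, fun _ _ _ => rfl⟩,
      by simpa using hx⟩⟩
  refine ⟨m, isArtinian_of_acc hm.1.1.2, fun hc => ?_⟩
  obtain ⟨c, w, hw, hwU, key⟩ := exists_w hm.1.1.1 hm.1.2 hc
  have hE : m ⊔ Submodule.span R {w} ≤ S.E :=
    sup_le hm.1.2.1 ((Submodule.span_singleton_le_iff_mem _ _).2 (S.supp _ hw.sp.1))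
  have hwW : w ∈ m ⊔ Submodule.span R {w} :=
    Submodule.mem_sup_right (Submodule.mem_span_singleton_self w)
  have h : ∀ V ≤ m ⊔ Submodule.span R {w}, V ≤ m ∨ V = m ⊔ Submodule.span R {w} := fun V hV =>
    or_iff_not_imp_left.2 fun hVU => by
      obtain ⟨u, hu, hwu⟩ := simple_top hm.1.2.1 hw hV hVU
      have hUV := key V (hV.trans hE) u hu hwu
      refine le_antisymm hV (sup_le hUV ((Submodule.span_singleton_le_iff_mem _ _).2 ?_))
      simpa using V.sub_mem hwu (hUV hu)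
  refine hwU (hm.2 ⟨good_ext hm.1.1 le_sup_left h, hE, fun x hx => ?_⟩ le_sup_left hwW)
  rcases h _ ((Submodule.span_singleton_le_iff_mem _ _).2 hx) with a | -
  · obtain ⟨s, s1, s2⟩ := hm.1.2.2 x (a (Submodule.mem_span_singleton_self _))
    exact ⟨s, Submodule.mem_sup_left s1, s2⟩
  · rcases h _ le_sup_right with a | a
    · exact absurd (a (Submodule.mem_span_singleton_self _)) hwU
    · exact ⟨w, hwW, hw.sp, a.ge hx⟩

end Setup

section rep
variable {G : Type} [Group G]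

theorem smul_mem_of {M : Type} [AddCommGroup M] [Module (MonoidAlgebra ℤ G) M]
    (T : AddSubgroup M) (x : M) (h : ∀ g, MonoidAlgebra.of ℤ G g • x ∈ T)
    (r : MonoidAlgebra ℤ G) : r • x ∈ T := by
  induction r using MonoidAlgebra.induction_on with
  | of g => exact h g
  | add r s hr hs => exact add_smul r s x ▸ T.add_mem hr hs
  | smul k r hr =>
    rw [← Int.cast_smul_eq_zsmul (MonoidAlgebra ℤ G), smul_assoc, Int.cast_smul_eq_zsmul]
    exact T.zsmul_mem hr k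

/-- An invariant subgroup is a submodule. -/
def toSub {M : Type} [AddCommGroup M] [Module (MonoidAlgebra ℤ G) M] (V : AddSubgroup M)
    (h : ∀ g, ∀ x ∈ V, MonoidAlgebra.of ℤ G g • x ∈ V) : Submodule (MonoidAlgebra ℤ G) M :=
  { V with smul_mem' := fun r x hx => smul_mem_of V x (fun g => h g x hx) r }

theorem main_rep {Q K : Type} [Group Q] [Field K] [Countable Q] (π : G →* Q) (c : G → Q → K)
    (h1 : c 1 = 1) (hc : ∀ g h, c (g * h) = c g * tr (π g) (c h)) (E : AddSubgroup (Q → K))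
    (hE : ∀ g, ∀ f ∈ E, c g * tr (π g) f ∈ E) (B : Subring (Q → K)) (H : ℕ → Subgroup Q)
    (anti : Antitone H) (fin : ∀ j, (H j).relIndex (H 0) ≠ 0) (inf : ∀ j, ∃ k, ∃ h ∈ H j, h ∉ H k)
    (supp : ∀ f, (∀ y, y ∉ H 0 → f y = 0) → f ∈ E)
    (hB : ∀ V ≤ E, (∀ g, ∀ f ∈ V, c g * tr (π g) f ∈ V) →
      (∀ b ∈ B, ∀ f ∈ V, b * f ∈ V) ∧ ∀ q, ∀ f ∈ V, tr q f ∈ V)
    (hcB : ∀ g, c g ∈ B) (hI : ∀ j z, ci (H j) z ∈ B)
    (hZ : ∀ b ∈ B, ∀ g, ∃ j, ∃ b' ∈ B, ∀ y, y * g ∈ H 0 →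
      (∀ h ∈ H j, b y = 0 → b (h * y) = 0) ∧ (b y ≠ 0 → b' y * b y = 1)) :
    ∃ (M : Type) (_ : AddCommGroup M) (_ : Module (MonoidAlgebra ℤ G) M),
      IsArtinian (MonoidAlgebra ℤ G) M ∧ ¬ Countable M := by
  let ρ : Representation ℤ G (Q → K) :=
    { toFun := fun g => AddMonoidHom.toIntLinearMap
        (AddMonoidHom.mk' (fun f => c g * tr (π g) f) fun f f' => mul_add _ _ _)
      map_one' := LinearMap.ext fun f => by simp [h1, tr_one]
      map_mul' := fun g h => LinearMap.ext fun f => by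
        change c (g * h) * tr (π (g * h)) f = c g * tr (π g) (c h * tr (π h) f)
        rw [hc, tr_mul, tr_tr, map_mul, mul_assoc] }
  let : Module (MonoidAlgebra ℤ G) (Q → K) := Module.compHom _ ρ.asAlgebraHom.toRingHom
  have e : ∀ g (f : Q → K), MonoidAlgebra.of ℤ G g • f = c g * tr (π g) f := fun g f =>
    LinearMap.congr_fun (ρ.asAlgebraHom_of g) f
  have hV : ∀ V : Submodule (MonoidAlgebra ℤ G) (Q → K), ∀ g, ∀ f ∈ V.toAddSubgroup,
      c g * tr (π g) f ∈ V.toAddSubgroup := fun V g f hf => e g f ▸ V.smul_mem _ hf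
  obtain ⟨U, hU⟩ := Setup.main (R := MonoidAlgebra ℤ G)
    ⟨toSub E fun g f hf => (e g f).symm ▸ hE g f hf, B, H, anti, fin, inf, supp,
      fun V h => (hB V.toAddSubgroup h (hV V)).1, fun V h => (hB V.toAddSubgroup h (hV V)).2,
      fun r w T h => smul_mem_of T w (fun g => (e g w).symm ▸ h _ (hcB g) _) r, hI, hZ⟩
  exact ⟨U, inferInstance, inferInstance, hU⟩

end rep

end Pool.Agent.P.MP_90339f_al.H2
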