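import Pool.Agent.P.MP_90339f_al.H2.Unc

/-! A finitely presented torsion-free metabelian group of rank four with an uncountable Artinian
module. -/

set_option autoImplicit false
set_option linter.unusedSectionVars false

namespace Pool.Agent.P.MP_90339f_al.H2

open scoped Classical
open Multiplicative

/-- The group `ℚ ^ 2 ⋊ ℤ ^ 2`. -/
@[ext] structure Gm where
  a : ℚ
  b : ℚ
  n : ℤ
  k : ℤ

namespace Gm

instance : Mul Gm :=
  ⟨fun g h => ⟨g.a + 2 ^ g.k * (h.a + g.n * h.b), g.b + 2 ^ g.k * h.b, g.n + h.n, g.k + h.k⟩⟩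
instance : One Gm := ⟨⟨0, 0, 0, 0⟩⟩
instance : Inv Gm := ⟨fun g => ⟨-(2 ^ (-g.k) * (g.a - g.n * g.b)), -(2 ^ (-g.k) * g.b), -g.n, -g.k⟩⟩

@[simp] theorem mul_a (g h : Gm) : (g * h).a = g.a + 2 ^ g.k * (h.a + g.n * h.b) := rfl
@[simp] theorem mul_b (g h : Gm) : (g * h).b = g.b + 2 ^ g.k * h.b := rfl
@[simp] theorem mul_n (g h : Gm) : (g * h).n = g.n + h.n := rfl
@[simp] theorem mul_k (g h : Gm) : (g * h).k = g.k + h.k := rfl
@[simp] theorem one_a : (1 : Gm).a = 0 := rfl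
@[simp] theorem one_b : (1 : Gm).b = 0 := rfl
@[simp] theorem one_n : (1 : Gm).n = 0 := rfl
@[simp] theorem one_k : (1 : Gm).k = 0 := rfl
@[simp] theorem inv_a (g : Gm) : (g⁻¹).a = -(2 ^ (-g.k) * (g.a - g.n * g.b)) := rfl
@[simp] theorem inv_b (g : Gm) : (g⁻¹).b = -(2 ^ (-g.k) * g.b) := rfl
@[simp] theorem inv_n (g : Gm) : (g⁻¹).n = -g.n := rfl
@[simp] theorem inv_k (g : Gm) : (g⁻¹).k = -g.k := rfl

instance : Group Gm := Group.ofLeftAxioms
  (fun x y z => by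
    ext <;> simp only [mul_a, mul_b, mul_n, mul_k, zpow_add₀ (two_ne_zero (α := ℚ)), Int.cast_add]
      <;> ring)
  (fun x => by ext <;> simp)
  (fun x => by
    ext <;> simp only [mul_a, mul_b, mul_n, mul_k, inv_a, inv_b, inv_n, inv_k, one_a, one_b, one_n,
      one_k, Int.cast_neg] <;> ring)

/-- The projection. -/
def pr : Gm →* Multiplicative (ℤ × ℤ) :=
  MonoidHom.mk' (fun g => ofAdd (g.n, g.k)) fun _ _ => rfl

/-- The base group. -/
def hA : Multiplicative (ℚ × ℚ) →* Gm :=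
  MonoidHom.mk' (fun v => ⟨v.toAdd.1, v.toAdd.2, 0, 0⟩) fun _ _ => by ext <;> simp

/-- The complement. -/
def hQ : Multiplicative (ℤ × ℤ) →* Gm :=
  MonoidHom.mk' (fun v => ⟨0, 0, v.toAdd.1, v.toAdd.2⟩) fun _ _ => by ext <;> simp

/-- The generators. -/
def gen : Fin 4 → Gm := ![hA (ofAdd (1, 0)), hA (ofAdd (0, 1)), hQ (ofAdd (1, 0)), hQ (ofAdd (0, 1))]

theorem g0 (m : ℤ) : gen 0 ^ m = ⟨m, 0, 0, 0⟩ := (map_zpow hA _ _).symm.trans (by simp [hA])
theorem g1 (m : ℤ) : gen 1 ^ m = ⟨0, m, 0, 0⟩ := (map_zpow hA _ _).symm.trans (by simp [hA])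
theorem g2 (m : ℤ) : gen 2 ^ m = ⟨0, 0, m, 0⟩ := (map_zpow hQ _ _).symm.trans (by simp [hQ])
theorem g3 (m : ℤ) : gen 3 ^ m = ⟨0, 0, 0, m⟩ := (map_zpow hQ _ _).symm.trans (by simp [hQ])

end Gm

open Gm

open FreeGroup in
/-- The relators. -/
def rels : Set (FreeGroup (Fin 4)) :=
  {of 0 * of 1 * (of 1 * of 0)⁻¹, of 0 * of 2 * (of 2 * of 0)⁻¹, of 3 * of 2 * (of 2 * of 3)⁻¹,
    of 2 * of 1 * (of 0 * of 1 * of 2)⁻¹, of 3 * of 0 * (of 0 * of 0 * of 3)⁻¹,
    of 3 * of 1 * (of 1 * of 1 * of 3)⁻¹}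

instance : Finite rels := by unfold rels; infer_instance

/-- The group. -/
abbrev Pg : Type := PresentedGroup rels

/-- The embedding. -/
def emb : Pg →* Gm := PresentedGroup.toGroup (f := gen) (by
  simp only [rels, Set.mem_insert_iff, Set.mem_singleton_iff, forall_eq_or_imp, forall_eq, map_mul,
    map_inv, FreeGroup.lift_apply_of, mul_inv_eq_one]
  rw [← zpow_one (gen 0), ← zpow_one (gen 1), ← zpow_one (gen 2), ← zpow_one (gen 3), g0, g1, g2,
    g3]
  refine ⟨?_, ?_, ?_, ?_, ?_, ?_⟩ <;> ext <;> norm_num)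

/-- The generators. -/
abbrev ge (i : Fin 4) : Pg := PresentedGroup.of i

theorem emb_ge (i : Fin 4) : emb (ge i) = gen i := PresentedGroup.toGroup.of _

theorem normal_form (g : Pg) : ∃ (j : ℕ) (m l n k : ℤ),
    g = (ge 3 ^ j)⁻¹ * (ge 0 ^ m * ge 1 ^ l * ge 2 ^ n) * ge 3 ^ k := by
  have r : ∀ {u v}, u * v⁻¹ ∈ rels → PresentedGroup.mk rels u = PresentedGroup.mk rels v :=
    PresentedGroup.mk_eq_mk_of_mul_inv_mem
  have xy : Commute (ge 0) (ge 1) := r (by simp [rels])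
  have xt : Commute (ge 0) (ge 2) := r (by simp [rels])
  have st : Commute (ge 3) (ge 2) := r (by simp [rels])
  have ty : ge 2 * ge 1 = ge 0 * ge 1 * ge 2 := r (by simp [rels])
  have sx : ge 3 * ge 0 = ge 0 * ge 0 * ge 3 := r (by simp [rels])
  have sy : ge 3 * ge 1 = ge 1 * ge 1 * ge 3 := r (by simp [rels])
  have hG := PresentedGroup.closure_range_of rels
  rw [show Set.range (PresentedGroup.of : Fin 4 → Pg) = {ge 0, ge 1, ge 2, ge 3} by
    ext; simp [Fin.exists_fin_succ, eq_comm]] at hG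
  generalize ge 0 = x at *
  generalize ge 1 = y at *
  generalize ge 2 = t at *
  generalize ge 3 = s at *
  have nf : ∀ u ∈ Subgroup.closure {x, y, t}, ∃ m l n : ℤ, u = x ^ m * y ^ l * t ^ n := by
    have t1 : ∀ l : ℤ, t * y ^ l = x ^ l * y ^ l * t := fun l => by
      rw [← xy.mul_zpow]; exact (SemiconjBy.zpow_right ty l).eq
    intro u hu
    induction hu using Subgroup.closure_induction_left with
    | one => exact ⟨0, 0, 0, by simp⟩
    | mul_left z hz u _ ih =>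
      obtain ⟨m, l, n, rfl⟩ := ih
      obtain rfl | rfl | rfl := hz
      · exact ⟨1 + m, l, n, by group⟩
      · exact ⟨m, 1 + l, n, by
          rw [← mul_assoc, ← mul_assoc, ← (xy.zpow_left m).eq]; group⟩
      · exact ⟨m + l, l, 1 + n, by
          rw [← mul_assoc, ← mul_assoc, ← (xt.zpow_left m).eq, mul_assoc _ z, t1]; group⟩
    | inv_mul_cancel z hz u _ ih =>
      obtain ⟨m, l, n, rfl⟩ := ih
      obtain rfl | rfl | rfl := hz
      · exact ⟨-1 + m, l, n, by group⟩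
      · exact ⟨m, -1 + l, n, by
          rw [← mul_assoc, ← mul_assoc, ← (xy.inv_right.zpow_left m).eq]; group⟩
      · refine ⟨m - l, l, -1 + n, inv_mul_eq_iff_eq_mul.2 ?_⟩
        rw [← mul_assoc, ← mul_assoc, ← (xt.zpow_left _).eq, mul_assoc _ z, t1]
        group
  have cs : ∀ u ∈ Subgroup.closure {x, y, t}, s * u * s⁻¹ ∈ Subgroup.closure {x, y, t} :=
    (Subgroup.closure_le (K := (Subgroup.closure {x, y, t}).comap (MulAut.conj s).toMonoidHom)).2
      (by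
        rintro z (rfl | rfl | rfl) <;> simp [sx, sy, st.eq, mul_mem, Subgroup.mem_closure_of_mem])
  have cj : ∀ j : ℕ, ∀ u ∈ Subgroup.closure {x, y, t},
      s ^ j * u * (s ^ j)⁻¹ ∈ Subgroup.closure {x, y, t} := fun j u hu => by
    induction j with
    | zero => simpa using hu
    | succ j ih => simpa [pow_succ', mul_assoc] using cs _ ih
  suffices h : ∃ (j : ℕ) (k : ℤ), ∃ u ∈ Subgroup.closure {x, y, t}, g = (s ^ j)⁻¹ * u * s ^ k by
    obtain ⟨j, k, u, hu, rfl⟩ := h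
    obtain ⟨m, l, n, rfl⟩ := nf u hu
    exact ⟨j, m, l, n, k, rfl⟩
  have a : ∀ z ∈ Subgroup.closure {x, y, t}, ∀ (j : ℕ) (k : ℤ), ∀ u ∈ Subgroup.closure {x, y, t},
      ∃ (j' : ℕ) (k' : ℤ), ∃ u' ∈ Subgroup.closure {x, y, t},
        z * ((s ^ j)⁻¹ * u * s ^ k) = (s ^ j')⁻¹ * u' * s ^ k' := fun z hz j k u hu =>
    ⟨j, k, _, mul_mem (cj j z hz) hu, by group⟩
  induction hG.ge (Subgroup.mem_top g) using Subgroup.closure_induction_left with
  | one => exact ⟨0, 0, 1, one_mem _, by simp⟩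
  | mul_left z hz u _ ih =>
    obtain ⟨j, k, u, hu, rfl⟩ := ih
    obtain rfl | rfl | rfl | rfl := hz
    iterate 3 exact a _ (Subgroup.subset_closure (by simp)) j k u hu
    exact ⟨j, 1 + k, _, cs u hu, by group⟩
  | inv_mul_cancel z hz u _ ih =>
    obtain ⟨j, k, u, hu, rfl⟩ := ih
    obtain rfl | rfl | rfl | rfl := hz
    iterate 3 exact a _ (inv_mem (Subgroup.subset_closure (by simp))) j k u hu
    exact ⟨j + 1, k, u, hu, by group⟩

theorem emb_nf (j : ℕ) (m l n k : ℤ) :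
    emb ((ge 3 ^ j)⁻¹ * (ge 0 ^ m * ge 1 ^ l * ge 2 ^ n) * ge 3 ^ k) =
      ⟨m / 2 ^ j, l / 2 ^ j, n, k - j⟩ := by
  simp only [map_mul, map_inv, map_zpow, emb_ge, ← zpow_natCast, g0, g1, g2, g3]
  ext <;> simp <;> ring

theorem emb_inj : Function.Injective emb := (injective_iff_map_eq_one _).2 fun g hg => by
  obtain ⟨j, m, l, n, k, rfl⟩ := normal_form g
  rw [emb_nf] at hg
  obtain rfl : m = 0 := by simpa using congrArg Gm.a hg
  obtain rfl : l = 0 := by simpa using congrArg Gm.b hg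
  obtain rfl : n = 0 := by simpa using congrArg Gm.n hg
  obtain rfl : k = j := by simpa [sub_eq_zero] using congrArg Gm.k hg
  simp

theorem rank_step {G : Type} [Group G] (N N' : Subgroup G) (f : N' →* Multiplicative ℚ)
    (hf : ∀ x, f x = 1 → x.1 ∈ N) {r : ℕ} (h : ∀ s : Finset G, (∀ x ∈ s, x ∈ N) →
      ∃ s' : Finset G, s'.card ≤ r ∧ Subgroup.closure (s' : Set G) = Subgroup.closure s)
    (s : Finset G) (hs : ∀ x ∈ s, x ∈ N') :
    ∃ s' : Finset G, s'.card ≤ r + 1 ∧ Subgroup.closure (s' : Set G) = Subgroup.closure s := by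
  have le : Subgroup.closure (s : Set G) ≤ N' := (Subgroup.closure_le _).2 hs
  let d : ℕ := ∏ x : s, (f ⟨x, hs x x.2⟩).toAdd.den
  have h1 : ((Subgroup.closure (s : Set G)).subgroupOf N').map f ≤
      Subgroup.zpowers (ofAdd (d : ℚ)⁻¹) := by
    rw [Subgroup.map_le_iff_le_comap, ← Subgroup.map_subtype_le_map_subtype,
      Subgroup.subgroupOf_map_subtype]
    refine inf_le_left.trans ((Subgroup.closure_le _).2 fun x hx => ⟨⟨x, hs x hx⟩, ?_, rfl⟩)
    obtain ⟨c, hc⟩ : (f ⟨x, hs x hx⟩).toAdd.den ∣ d :=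
      Finset.dvd_prod_of_mem _ (Finset.mem_univ (⟨x, hx⟩ : s))
    have : (d : ℚ) ≠ 0 := Nat.cast_ne_zero.2 (Finset.prod_ne_zero_iff.2 fun _ _ => Rat.den_ne_zero _)
    refine ⟨(f ⟨x, hs x hx⟩).toAdd.num * c, toAdd.injective ?_⟩
    rw [toAdd_zpow, toAdd_ofAdd, zsmul_eq_mul, mul_inv_eq_iff_eq_mul₀ this, hc]
    push_cast
    rw [← mul_assoc, Rat.mul_den_eq_num]
  have := Subgroup.isCyclic_of_le h1
  obtain ⟨⟨_, g, hg, rfl⟩, h2⟩ := this.exists_generator
  have h3 : ∀ x ∈ s, ∃ e : ℤ, (g.1 ^ e)⁻¹ * x ∈ N := fun x hx => by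
    obtain ⟨e, he⟩ := h2 ⟨_, ⟨x, hs x hx⟩, Subgroup.subset_closure hx, rfl⟩
    exact ⟨e, hf ((g ^ e)⁻¹ * ⟨x, hs x hx⟩) (by
      rw [map_mul, map_inv, map_zpow, inv_mul_eq_one]; exact congrArg Subtype.val he)⟩
  choose! e he using h3
  obtain ⟨s', c1, c2⟩ := h (s.image fun x => (g.1 ^ e x)⁻¹ * x) fun y hy => by
    obtain ⟨x, hx, rfl⟩ := Finset.mem_image.1 hy
    exact he x hx
  refine ⟨insert g.1 s', (Finset.card_insert_le _ _).trans (by omega), ?_⟩
  rw [Finset.coe_insert, ← Set.singleton_union, Subgroup.closure_union, c2]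
  refine le_antisymm (sup_le ((Subgroup.closure_le _).2 (Set.singleton_subset_iff.2 hg))
    ((Subgroup.closure_le _).2 fun y hy => ?_)) ((Subgroup.closure_le _).2 fun x hx => ?_)
  · obtain ⟨x, hx, rfl⟩ := Finset.mem_image.1 hy
    exact mul_mem (inv_mem (zpow_mem hg _)) (Subgroup.subset_closure hx)
  · simpa using mul_mem (Subgroup.mem_sup_left (zpow_mem (Subgroup.mem_closure_singleton_self g.1)
      (e x))) (Subgroup.mem_sup_right (Subgroup.subset_closure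
        (Finset.mem_image_of_mem (fun x => (g.1 ^ e x)⁻¹ * x) hx)))

theorem ker_pr {g : Pg} (h : g ∈ (pr.comp emb).ker) : (emb g).n = 0 ∧ (emb g).k = 0 :=
  Prod.mk.inj (ofAdd.injective h)

theorem pg_rank (H : Subgroup Pg) (hH : H.FG) :
    ∃ s : Finset Pg, s.card ≤ 4 ∧ Subgroup.closure (s : Set Pg) = H := by
  obtain ⟨s, rfl⟩ := hH
  let fk : Pg →* Multiplicative ℚ := MonoidHom.mk' (fun g => ofAdd ((emb g).k : ℚ)) (by simp)
  let fb : (pr.comp emb).ker →* Multiplicative ℚ := MonoidHom.mk' (fun g => ofAdd (emb g).b)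
    fun g h => by simp [ker_pr g.2]
  refine rank_step fk.ker ⊤ (fk.comp (Subgroup.subtype _)) (fun x h => h)
    (rank_step (pr.comp emb).ker fk.ker (MonoidHom.mk' (fun g => ofAdd ((emb g).n : ℚ)) (by simp))
      (fun x h => ?_) (rank_step (fb.ker.map (Subgroup.subtype _)) _ fb (fun x h => ⟨x, h, rfl⟩)
        (rank_step ⊥ _ (MonoidHom.mk' (fun g => ofAdd (emb g).a) ?_) ?_
          fun s hs => ⟨∅, le_rfl, ?_⟩))) s fun _ _ => trivial
  · exact congrArg ofAdd (Prod.ext (show (emb x).n = 0 by simpa using h)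
      (show (emb x).k = 0 by simpa [fk] using MonoidHom.mem_ker.1 x.2))
  · rintro ⟨_, g, -, rfl⟩ ⟨_, h, -, rfl⟩
    simp [ker_pr g.2]
  · rintro ⟨_, g, hg, rfl⟩ h
    refine emb_inj (Gm.ext (by simpa using h) (by simpa [fb] using hg) ?_ ?_) <;>
      simp [ker_pr g.2]
  · simpa using ((Subgroup.closure_eq_bot_iff).2 hs).symm

theorem pg_tf (g : Pg) (h : IsOfFinOrder g) : g = 1 := by
  obtain ⟨m, hm, e⟩ := isOfFinOrder_iff_pow_eq_one.1 h
  have h1 := ker_pr (g := g) ((pow_eq_one_iff_left hm.ne').1 (by rw [← map_pow, e, map_one]))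
  have h2 : emb g = hA (ofAdd ((emb g).a, (emb g).b)) := Gm.ext rfl rfl h1.1 h1.2
  have h3 := congrArg emb e
  rw [map_pow, h2, ← map_pow, map_one] at h3
  refine emb_inj (Gm.ext ?_ ?_ (by simp [h1]) (by simp [h1]))
  · simpa [hA, hm.ne'] using congrArg Gm.a h3
  · simpa [hA, hm.ne'] using congrArg Gm.b h3

theorem pg_two : derivedSeries Pg 2 = ⊥ := by
  have h : derivedSeries Pg 1 ≤ (pr.comp emb).ker := Abelianization.commutator_subset_ker _
  refine le_bot_iff.1 (Subgroup.commutator_le.2 fun g a g' b => ?_)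
  rw [Subgroup.mem_bot, commutatorElement_eq_one_iff_mul_comm]
  refine emb_inj ?_
  ext <;> simp [ker_pr (h a), ker_pr (h b), add_comm]

theorem pg_unc : ∃ (M : Type) (_ : AddCommGroup M) (_ : Module (MonoidAlgebra ℤ Pg) M),
    IsArtinian (MonoidAlgebra ℤ Pg) M ∧ ¬ Countable M := by
  have := Fact.mk Nat.prime_three
  obtain ⟨ψ, hψ⟩ := ext_char (K := AlgebraicClosure (ZMod 3))
    (zpowersHom (Multiplicative ℚ) (ofAdd 2⁻¹)) 
    (fun a b h => by simpa using congrArg toAdd h) (zpowersHom _ (-1))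
  let e : ℚ → AlgebraicClosure (ZMod 3) := fun x => ψ (ofAdd x)
  have ea : ∀ x y, e (x + y) = e x * e y := fun x y => by simp [e]
  have en : ∀ (n : ℕ) x, e (n * x) = e x ^ n := fun n x => by
    simp only [e, ← nsmul_eq_mul, ofAdd_nsmul, map_pow, Units.val_pow_eq_pow_val]
  have eh : ∀ m : ℤ, e (m * 2⁻¹) = (-1) ^ m := fun m => by
    simpa [e, ← ofAdd_zsmul] using congrArg Units.val (hψ (ofAdd m))
  have ez : ∀ m : ℤ, e m = 1 := fun m => by
    simpa [mul_assoc, mul_comm (2 : ℚ), zpow_mul] using eh (2 * m)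
  have n1 : (-1 : AlgebraicClosure (ZMod 3)) ≠ 1 := fun h => by
    have := (CharP.cast_eq_zero_iff (AlgebraicClosure (ZMod 3)) 3 2).1 (by
      push_cast; linear_combination -h)
    omega
  let C : ℕ → Subgroup (Multiplicative (ℤ × ℤ)) := fun j =>
    { carrier := {y | y.toAdd.2 = 0 ∧ 2 ^ j ∣ y.toAdd.1}
      one_mem' := by simp
      mul_mem' := fun a b => ⟨by simp [a.1, b.1], dvd_add a.2 b.2⟩
      inv_mem' := fun a => ⟨by simp [a.1], by simpa using a.2⟩ }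
  have : Countable (Multiplicative (ℤ × ℤ)) := inferInstanceAs (Countable (ℤ × ℤ))
  refine main_coc (closure_tors 3) (pr.comp emb)
    (fun g y => e (2 ^ y.toAdd.2 * ((emb g).a + y.toAdd.1 * (emb g).b)))
    (funext fun y => by simpa using ez 0) (fun g h => funext fun y => ?_) C
    (fun i j h y a => ⟨a.1, (pow_dvd_pow 2 h).trans a.2⟩) (fun j h => ?_) (fun g g' => ?_)
    (fun q => ?_) ?_ fun H hH => ?_
  · simp only [tr, Pi.mul_apply, ← ea, map_mul, mul_a, mul_b, MonoidHom.comp_apply, pr,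
      MonoidHom.mk'_apply, toAdd_mul, toAdd_ofAdd, Prod.fst_add, Prod.snd_add,
      zpow_add₀ (two_ne_zero (α := ℚ)), Int.cast_add]
    ring_nf
  · let f : Multiplicative (ℤ × ℤ) →* Multiplicative (ZMod (2 ^ j)) :=
      MonoidHom.mk' (fun y => ofAdd (y.toAdd.1 : ZMod (2 ^ j))) (by simp)
    refine Subgroup.FiniteIndex.index_ne_zero (H := f.ker.subgroupOf (C 0)) ?_
    rw [← Subgroup.relIndex, ← Subgroup.inf_relIndex_right]
    refine Subgroup.relIndex_eq_zero_of_le_left (K := C j) (fun y a => And.intro a.2.1 ?_) h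
    exact_mod_cast (ZMod.intCast_zmod_eq_zero_iff_dvd _ _).1 (ofAdd.injective a.1)
  · obtain ⟨j, m, l, n, k, rfl⟩ := normal_form g
    refine ⟨j + g'.toAdd.2.toNat, fun h ⟨a, r, hr⟩ y b => ?_⟩
    obtain ⟨i, hi⟩ := Int.eq_ofNat_of_zero_le (show 0 ≤ y.toAdd.2 + g'.toAdd.2.toNat by
      have : y.toAdd.2 + g'.toAdd.2 = 0 := b.1
      omega)
    have e1 : (2 : ℚ) ^ y.toAdd.2 * 2 ^ g'.toAdd.2.toNat = 2 ^ i := by
      rw [← zpow_natCast, ← zpow_add₀ two_ne_zero, hi, zpow_natCast]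
    simp only [emb_nf, toAdd_mul, Prod.fst_add, Prod.snd_add, a, hr, zero_add]
    rw [← mul_one (e (_ * (_ + y.toAdd.1 * _))), ← ez (2 ^ i * r * l), ← ea]
    push_cast
    rw [← e1]
    congr 1
    field_simp
    ring
  · refine ⟨(ge 3 ^ 0)⁻¹ * (ge 0 ^ (0 : ℤ) * ge 1 ^ (0 : ℤ) * ge 2 ^ q.toAdd.1) * ge 3 ^ q.toAdd.2,
      ?_, funext fun y => ?_⟩
    · rw [MonoidHom.comp_apply, emb_nf]; simp [pr]
    · rw [emb_nf]; simpa using ez 0
  · refine ⟨(ge 3 ^ 1)⁻¹ * (ge 0 ^ (1 : ℤ) * ge 1 ^ (0 : ℤ) * ge 2 ^ (0 : ℤ)) * ge 3 ^ (0 : ℤ), -1,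
      fun y => ?_⟩
    rw [emb_nf]
    refine ⟨fun h => ⟨?_, by simp⟩, fun h => by simpa [h.1] using eh 1⟩
    obtain ⟨i, hi | hi⟩ := Int.eq_nat_or_neg y.toAdd.2
    all_goals
      obtain _ | i := i
      · simpa using hi
      refine absurd ?_ n1
    · simpa [hi, zpow_add₀] using h.symm.trans (by simpa [hi, zpow_add₀] using ez (2 ^ i))
    · have := en (2 ^ (i + 1)) (2 ^ y.toAdd.2 * 2⁻¹)
      simp only [Int.cast_one, pow_one, Int.cast_zero, zero_div, mul_zero, add_zero, one_div,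
        Int.cast_neg] at h
      rw [h, hi, zpow_neg, zpow_natCast, Nat.cast_pow, Nat.cast_ofNat,
        mul_inv_cancel_left₀ (by positivity), pow_succ', pow_mul, neg_one_sq, one_pow] at this
      simpa [this] using (eh 1).symm
  · obtain ⟨N, hN, -, a, -⟩ := Subgroup.exists_pow_mem_of_relIndex_ne_zero hH
      (show ofAdd (1, 0) ∈ C 0 from ⟨rfl, by simp⟩)
    obtain ⟨v, o, ho, rfl⟩ := Nat.exists_eq_two_pow_mul_odd hN.ne'
    refine ⟨_, a, (ge 3 ^ (v + 1))⁻¹ * (ge 0 ^ (0 : ℤ) * ge 1 ^ (1 : ℤ) * ge 2 ^ (0 : ℤ)) *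
      ge 3 ^ (0 : ℤ), fun h => n1 ?_⟩
    rw [emb_nf] at h
    have := h.2 (by simpa using ez 0)
    rw [← ho.neg_one_pow, ← zpow_natCast, ← eh, ← this]
    congr 1
    simp [pow_succ]
    field_simp

end Pool.Agent.P.MP_90339f_al.H2
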