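import Pool.Agent.P.MP_90339f_al.H2.Core
import Pool.Agent.P.MP_90339f_al.H2.Cher

/-! Uncountable Artinian modules from a cocycle. -/

set_option autoImplicit false
set_option linter.unusedSectionVars false

namespace Pool.Agent.P.MP_90339f_al.H2

open scoped Classical

section
variable {G Q K : Type} [Group G] [Group Q] [Field K]

/-- Functions supported on finitely many cosets. -/
def fs (K : Type) [Field K] (C : Subgroup Q) : AddSubgroup (Q → K) where
  carrier := {f | ∃ s : Finset Q, ∀ y, (∀ g ∈ s, y * g ∉ C) → f y = 0}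
  zero_mem' := ⟨∅, fun _ _ => rfl⟩
  add_mem' := by
    rintro f f' ⟨s, h⟩ ⟨s', h'⟩
    exact ⟨s ∪ s', fun y hy => by
      rw [Pi.add_apply, h y fun g a => hy g (Finset.mem_union_left _ a),
        h' y fun g a => hy g (Finset.mem_union_right _ a), add_zero]⟩
  neg_mem' := by
    rintro f ⟨s, h⟩
    exact ⟨s, fun y hy => by rw [Pi.neg_apply, h y hy, neg_zero]⟩

/-- Multipliers of all invariant subgroups. -/
def mu (π : G →* Q) (c : G → Q → K) (E : AddSubgroup (Q → K)) : Subring (Q → K) where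
  carrier := {b | ∀ V ≤ E, (∀ g, ∀ f ∈ V, c g * tr (π g) f ∈ V) → ∀ f ∈ V, b * f ∈ V}
  one_mem' := fun _ _ _ f hf => by rwa [one_mul]
  zero_mem' := fun V _ _ f _ => by rw [zero_mul]; exact V.zero_mem
  mul_mem' := fun ha hb V h h' f hf => by rw [mul_assoc]; exact ha V h h' _ (hb V h h' f hf)
  add_mem' := fun ha hb V h h' f hf => by
    rw [add_mul]; exact V.add_mem (ha V h h' f hf) (hb V h h' f hf)
  neg_mem' := fun ha V h h' f hf => by rw [neg_mul]; exact V.neg_mem (ha V h h' f hf)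

/-- Functions which are periodic on every coset. -/
def lp (K : Type) [Field K] (C : ℕ → Subgroup Q) (anti : Antitone C) : Subring (Q → K) where
  carrier := {b | ∀ g, ∃ j, ∀ h ∈ C j, ∀ y, y * g ∈ C 0 → b (h * y) = b y}
  one_mem' := fun _ => ⟨0, fun _ _ _ _ => rfl⟩
  zero_mem' := fun _ => ⟨0, fun _ _ _ _ => rfl⟩
  mul_mem' := fun ha hb g => (ha g).elim fun i hi => (hb g).elim fun j hj =>
    ⟨max i j, fun h a y b => by
      rw [Pi.mul_apply, hi h (anti (le_max_left i j) a) y b, hj h (anti (le_max_right i j) a) y b,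
        Pi.mul_apply]⟩
  add_mem' := fun ha hb g => (ha g).elim fun i hi => (hb g).elim fun j hj =>
    ⟨max i j, fun h a y b => by
      rw [Pi.add_apply, hi h (anti (le_max_left i j) a) y b, hj h (anti (le_max_right i j) a) y b,
        Pi.add_apply]⟩
  neg_mem' := fun ha g => (ha g).elim fun i hi =>
    ⟨i, fun h a y b => by rw [Pi.neg_apply, hi h a y b, Pi.neg_apply]⟩

theorem reps {H C : Subgroup Q} (h : H.relIndex C ≠ 0) :
    ∃ s : Finset Q, (∀ z ∈ s, z ∈ C) ∧ ∀ y ∈ C, ∃ z ∈ s, y * z⁻¹ ∈ H := by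
  have : (H.subgroupOf C).FiniteIndex := ⟨h⟩
  have := Fintype.ofFinite (C ⧸ H.subgroupOf C)
  refine ⟨Finset.univ.image fun q : C ⧸ H.subgroupOf C => (q.out.1)⁻¹, fun z hz => ?_,
    fun y hy => ⟨_, Finset.mem_image_of_mem _ (Finset.mem_univ (QuotientGroup.mk ⟨y, hy⟩⁻¹)), ?_⟩⟩
  · obtain ⟨q, -, rfl⟩ := Finset.mem_image.1 hz
    exact inv_mem q.out.2
  · simpa [Subgroup.mem_subgroupOf] using QuotientGroup.eq.1
      (QuotientGroup.out_eq' (QuotientGroup.mk (s := H.subgroupOf C) ⟨y, hy⟩⁻¹)).symm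

theorem lp_pow (hK : ∀ x : K, x ≠ 0 → ∃ n, n ≠ 0 ∧ x ^ n = 1) {C : ℕ → Subgroup Q}
    {anti : Antitone C} (fin : ∀ j, (C j).relIndex (C 0) ≠ 0) {b : Q → K} (hb : b ∈ lp K C anti)
    (s : Finset Q) : ∃ n, ∀ g ∈ s, ∀ y, y * g ∈ C 0 → b y ≠ 0 → b y ^ (n + 1) = 1 := by
  choose! o o1 o2 using hK
  choose j hj using hb
  choose t t1 t2 using fun g => reps (fin (j g))
  let T := (s.biUnion fun g => (t g).image fun z => b (z * g⁻¹)).erase 0
  refine ⟨∏ x ∈ T, o x - 1, fun g hg y hy h0 => ?_⟩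
  obtain ⟨z, z1, z2⟩ := t2 g _ hy
  have e : b y = b (z * g⁻¹) := by
    simpa [mul_assoc] using hj g _ z2 (z * g⁻¹) (by simpa using t1 g z z1)
  obtain ⟨k, hk⟩ := Finset.dvd_prod_of_mem o (show b y ∈ T from Finset.mem_erase.2
    ⟨h0, Finset.mem_biUnion.2 ⟨g, hg, Finset.mem_image.2 ⟨z, z1, e.symm⟩⟩⟩)
  rw [Nat.sub_add_cancel (Nat.pos_of_ne_zero (Finset.prod_ne_zero_iff.2 fun x hx =>
    o1 x (Finset.mem_erase.1 hx).1)), hk, pow_mul, o2 _ h0, one_pow]

theorem main_coc [Countable Q] (hK : ∀ x : K, x ≠ 0 → ∃ n, n ≠ 0 ∧ x ^ n = 1) (π : G →* Q)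
    (c : G → Q → K) (h1 : c 1 = 1) (hc : ∀ g h, c (g * h) = c g * tr (π g) (c h))
    (C : ℕ → Subgroup Q) (anti : Antitone C) (fin : ∀ j, (C j).relIndex (C 0) ≠ 0)
    (hl : ∀ g, c g ∈ lp K C anti) (hs : ∀ q, ∃ g, π g = q ∧ c g = 1)
    (h0 : ∃ g, ∃ x : ℤ, ∀ y, c g y = x ↔ y ∈ C 0)
    (hd : ∀ H : Subgroup Q, H.relIndex (C 0) ≠ 0 → ∃ h ∈ H, ∃ g, ¬ (c g h = 1 ↔ c g 1 = 1)) :
    ∃ (M : Type) (_ : AddCommGroup M) (_ : Module (MonoidAlgebra ℤ G) M),
      IsArtinian (MonoidAlgebra ℤ G) M ∧ ¬ Countable M := by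
  let U := mu π c (fs K (C 0))
  have hT : ∀ V : AddSubgroup (Q → K), (∀ g, ∀ f ∈ V, c g * tr (π g) f ∈ V) →
      ∀ q, ∀ f ∈ V, tr q f ∈ V := fun V h q f hf => by
    obtain ⟨g, rfl, e⟩ := hs q
    simpa [e] using h g f hf
  have cU : ∀ g, c g ∈ U := fun g V _ h f hf => by
    simpa [tr_tr, tr_one] using h g _ (hT V h (π g)⁻¹ f hf)
  have tU : ∀ q, ∀ b ∈ U, tr q b ∈ U := fun q b hb V a h f hf => by
    simpa [tr_mul, tr_tr, tr_one] using hT V h q _ (hb V a h _ (hT V h q⁻¹ f hf))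
  have zU : ∀ b ∈ U, b ∈ lp K C anti → (fun y => if b y = 0 then 1 else 0) ∈ U :=
    fun b hb hb' V a h f hf => by
      obtain ⟨s, hs⟩ := a hf
      obtain ⟨n, hn⟩ := lp_pow hK fin hb' s
      convert U.sub_mem U.one_mem (U.pow_mem hb (n + 1)) V a h f hf using 1
      funext y
      simp only [Pi.mul_apply, Pi.sub_apply, Pi.one_apply, Pi.pow_apply]
      by_cases e : ∃ g ∈ s, y * g ∈ C 0
      · obtain ⟨g, g1, g2⟩ := e
        split_ifs with e
        · simp [e]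
        · rw [hn g g1 y g2 e, sub_self]
      · simp [hs y fun g g1 g2 => e ⟨g, g1, g2⟩]
  have iU : ci (C 0) 1 ∈ U := by
    obtain ⟨g, x, h⟩ := h0
    convert zU _ (U.sub_mem (cU g) (intCast_mem U x)) (sub_mem (hl g) (intCast_mem _ x)) using 1
    funext y
    simp [ci, sub_eq_zero, h]
  let H : ℕ → Subgroup Q := fun j =>
    { carrier := {h | h ∈ C 0 ∧ ∀ b ∈ U, (∀ h ∈ C j, ∀ y ∈ C 0, b (h * y) = b y) →
        ∀ y ∈ C 0, b (h * y) = 0 ↔ b y = 0}
      one_mem' := ⟨one_mem _, by simp⟩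
      mul_mem' := fun ha hb => ⟨mul_mem ha.1 hb.1, fun b b1 b2 y hy => by
        rw [mul_assoc, ha.2 b b1 b2 _ (mul_mem hb.1 hy), hb.2 b b1 b2 y hy]⟩
      inv_mem' := fun ha => ⟨inv_mem ha.1, fun b b1 b2 y hy => by
        rw [← ha.2 b b1 b2 _ (mul_mem (inv_mem ha.1) hy), mul_inv_cancel_left]⟩ }
  have CH : ∀ j, C j ≤ H j := fun j h a => ⟨anti (Nat.zero_le j) a, fun b _ b2 y hy => by
    rw [b2 h a y hy]⟩
  have HC : ∀ j, H j ≤ C 0 := fun j h a => a.1
  have fH : ∀ j, (H j).relIndex (C 0) ≠ 0 := fun j e =>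
    fin j (Subgroup.relIndex_eq_zero_of_le_left (CH j) e)
  refine main_rep π c h1 hc (fs K (C 0)) (fun g f ⟨s, hs⟩ => ⟨s.image (π g * ·), fun y hy => ?_⟩)
    (U ⊓ lp K C anti) H (fun i j a h b => ⟨b.1, fun f f1 f2 => b.2 f f1 fun h c => f2 h (anti a c)⟩)
    (fun j e => fH j (Subgroup.relIndex_eq_zero_of_le_right (HC 0) e)) (fun j => ?_)
    (fun f hf => ⟨{1}, fun y hy => hf y fun a => hy 1 (by simp) (by simpa using HC 0 a)⟩)
    (fun V a h => ⟨fun b hb => hb.1 V a h, hT V h⟩) (fun g => ⟨cU g, hl g⟩)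
    (fun j z => ⟨?_, fun g => ⟨j, fun h a y _ => ?_⟩⟩) fun b hb g => ?_
  · rw [Pi.mul_apply, tr, hs _ fun q a => by
      simpa [mul_assoc] using hy _ (Finset.mem_image_of_mem _ a), mul_zero]
  · obtain ⟨h, a, g, e⟩ := hd _ (fH j)
    obtain ⟨k, hk⟩ := hl g 1
    refine ⟨k, h, a, fun b => e ?_⟩
    simpa [sub_eq_zero] using b.2 _ (U.sub_mem (cU g) U.one_mem)
      (fun h a y b => by simp [hk h a y (by simpa using b)]) 1 (one_mem _)
  · have sep : ∀ z ∈ C 0, ∃ e ∈ U, (∀ y ∈ H j, e y = 1) ∧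
        (z ∉ H j → ∀ y, y * z⁻¹ ∈ H j → e y = 0) := fun z hz => by
      by_cases a : z ∈ H j
      · exact ⟨1, U.one_mem, fun _ _ => rfl, fun b => absurd a b⟩
      obtain ⟨b, b1, b2, w, hw, b3⟩ : ∃ b ∈ U, (∀ h ∈ C j, ∀ y ∈ C 0, b (h * y) = b y) ∧
          ∃ w ∈ C 0, ¬ (b (z * w) = 0 ↔ b w = 0) := by
        by_contra h
        exact a ⟨hz, fun b b1 b2 y hy => by_contra fun e => h ⟨b, b1, b2, y, hy, e⟩⟩
      have hZ := tU w _ (zU _ (U.mul_mem iU b1) fun g => ⟨j, fun h a y _ => by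
        by_cases e : y ∈ C 0
        · simp [ci, e, mul_mem (anti (Nat.zero_le j) a) e, b2 h a y e]
        · simp [ci, e, Subgroup.mul_mem_cancel_left _ (anti (Nat.zero_le j) a)]⟩)
      have v1 : ∀ y ∈ H j, b (y * w) = 0 ↔ b w = 0 := fun y hy => hy.2 b b1 b2 w hw
      have v2 : ∀ y, y * z⁻¹ ∈ H j → y * w ∈ C 0 ∧ (b (y * w) = 0 ↔ b (z * w) = 0) :=
        fun y hy => ⟨by simpa [mul_assoc] using mul_mem hy.1 (mul_mem hz hw),
          by simpa [mul_assoc] using hy.2 b b1 b2 _ (mul_mem hz hw)⟩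
      by_cases e : b w = 0
      · exact ⟨_, hZ, fun y hy => by simp [tr, (v1 y hy).2 e], fun _ y hy => by
          simp [tr, ci, (v2 y hy).1, (v2 y hy).2, show b (z * w) ≠ 0 by tauto]⟩
      · exact ⟨_, U.sub_mem U.one_mem hZ, fun y hy => by
          simp [tr, ci, mul_mem hy.1 hw, v1 y hy, e], fun _ y hy => by
          simp [tr, (v2 y hy).2, show b (z * w) = 0 by tauto]⟩
    choose! e e1 e2 e3 using sep
    obtain ⟨s, s1, s2⟩ := reps (fH j)
    change _ ∈ U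
    convert tU z⁻¹ _ (U.mul_mem iU (U.prod_mem fun x hx => e1 x (s1 x hx))) using 1
    funext y
    simp only [tr, ci, Pi.mul_apply, Finset.prod_apply, inv_one, mul_one]
    split_ifs with a b b
    · rw [one_mul, Finset.prod_eq_one fun x hx => e2 x (s1 x hx) _ a]
    · exact absurd a.1 b
    · obtain ⟨x, x1, x2⟩ := s2 _ b
      rw [Finset.prod_eq_zero (f := fun i => e i (y * z⁻¹)) x1 (e3 x (s1 x x1) (fun c => a (by simpa using mul_mem x2 c))
        (y * z⁻¹) x2),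
        mul_zero]
    · rw [zero_mul]
  · simp only [ci, mul_assoc, Subgroup.mul_mem_cancel_left _ (CH j a)]
  · obtain ⟨j, hj⟩ := hb.2 g
    obtain ⟨n, hn⟩ := lp_pow hK fin hb.2 {g}
    refine ⟨j, b ^ n, pow_mem hb n, fun y hy => ⟨fun h a e => ?_, fun e => ?_⟩⟩
    · simpa [tr, mul_assoc, e] using a.2 _ (tU g⁻¹ b hb.1) (fun h a y b => by
        simpa [tr, mul_assoc] using hj h a (y * g⁻¹) (by simpa using b)) _ (HC 0 hy)
    · rw [Pi.pow_apply, ← pow_succ, hn g (by simp) y (HC 0 hy) e]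

theorem closure_tors (l : ℕ) [Fact l.Prime] (x : AlgebraicClosure (ZMod l)) (hx : x ≠ 0) :
    ∃ n, n ≠ 0 ∧ x ^ n = 1 := by
  have := IntermediateField.adjoin.finiteDimensional
    (Algebra.IsIntegral.isIntegral (R := ZMod l) x)
  have : Finite (IntermediateField.adjoin (ZMod l) {x}) := Module.finite_of_finite (ZMod l)
  let u := Units.mk0 (IntermediateField.AdjoinSimple.gen (ZMod l) x) fun e =>
    hx (congrArg Subtype.val e)
  exact ⟨orderOf u, (orderOf_pos u).ne', congrArg (fun v => (Units.val v).1) (pow_orderOf_eq_one u)⟩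

end

open scoped IsMulCommutative in
theorem unc_of_inf {G : Type} [Group G] (D : Subgroup G) [D.Normal] [IsMulCommutative D]
    [WellFoundedLT (Subgroup D)] (hsol : Group.IsSolvable (G ⧸ D))
    (hmax : ∀ H : Subgroup (G ⧸ D), H.FG) (X : Subgroup D)
    (hX : ¬ (Nm MulAut.conjNormal X).FiniteIndex) :
    ∃ (M : Type) (_ : AddCommGroup M) (_ : Module (MonoidAlgebra ℤ G) M),
      IsArtinian (MonoidAlgebra ℤ G) M ∧ ¬ Countable M := by
  obtain ⟨k, hk⟩ := primes_bdd D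
  obtain ⟨l, hl, hp⟩ := Nat.exists_infinite_primes (k + 1)
  have := Fact.mk hp
  obtain ⟨m, hm, L, l1, l2⟩ := near_split D hsol hmax
  choose a a1 a2 using l1
  obtain ⟨ψ, p1, p2⟩ : ∃ ψ : D →* (AlgebraicClosure (ZMod l))ˣ, (∀ d, d ^ m = 1 → ψ d = 1) ∧
      ¬ (Nm MulAut.conjNormal ψ.ker).FiniteIndex := by
    by_contra h
    exact hX (bad_char _ (fun d e => by
      have := hk l hp d ((CharP.cast_eq_zero_iff _ l _).1 e)
      omega) _ hm (fun ψ a => by_contra fun b => h ⟨ψ, a, b⟩) X)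
  have : Countable (G ⧸ D) := by
    obtain ⟨ι, _, φ, hφ⟩ := Group.fg_iff_exists_freeGroup_hom_surjective_finite.1 ⟨hmax ⊤⟩
    exact hφ.countable
  let α : G ⧸ D →* MulAut D := QuotientGroup.lift D MulAut.conjNormal fun d hd => by
    ext x
    simp [show d * x = x * d from congrArg Subtype.val (mul_comm (⟨d, hd⟩ : D) x)]
  have key : ∀ g (d : D), d.1⁻¹ * g ∈ L → ∀ y, ψ (α y ⟨a g, a1 g⟩) = ψ (α y d) := fun g d h y => by
    rw [← mul_inv_eq_one, ← map_inv, ← map_mul, ← map_inv, ← map_mul]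
    refine p1 _ ?_
    have : (d⁻¹ * ⟨a g, a1 g⟩ : D) ^ m = 1 := Subtype.ext (l2 _ (by
      simpa [mul_assoc] using mul_mem h (inv_mem (a2 g))) (d⁻¹ * ⟨a g, a1 g⟩).2)
    rw [← map_pow, mul_comm, this, map_one]
  let C : ℕ → Subgroup (G ⧸ D) := fun j =>
    { carrier := {q | ∀ d : D, d ^ j.factorial = 1 → α q d = d}
      one_mem' := by simp
      mul_mem' := fun ha hb d hd => by rw [map_mul, MulAut.mul_apply, hb d hd, ha d hd]
      inv_mem' := fun ha d hd => by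
        rw [map_inv, MulAut.inv_apply, MulEquiv.symm_apply_eq, ha d hd] }
  have C0 : C 0 = ⊤ := top_unique fun q _ d hd => by rw [show d = 1 by simpa using hd, map_one]
  refine main_coc (closure_tors l) (QuotientGroup.mk' D) (fun g y => ψ (α y ⟨a g, a1 g⟩))
    (funext fun y => by simp [key 1 1 (by simp)]) (fun g h => funext fun y => ?_) C
    (fun i j e q hq d hd => hq d ?_) (fun j => ?_) (fun g _ => ?_) (fun q => ?_)
    ⟨1, 1, fun y => by simp [key 1 1 (by simp), C0]⟩ fun H hH => ?_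
  · rw [Pi.mul_apply, tr, ← Units.val_mul, map_mul α, MulAut.mul_apply, ← map_mul, ← map_mul]
    refine congrArg _ (key _ _ ?_ y)
    have e : g * a h * g⁻¹ = (a g)⁻¹ * (g * a h * g⁻¹) * a g := by
      rw [mul_assoc (a g)⁻¹, eq_inv_mul_iff_mul_eq]
      exact congrArg Subtype.val (mul_comm (⟨a g, a1 g⟩ : D) (MulAut.conjNormal g ⟨a h, a1 h⟩))
    change (a g * (g * a h * g⁻¹))⁻¹ * (g * h) ∈ L
    rw [e]
    convert mul_mem (a2 g) (a2 h) using 1
    group
  · obtain ⟨n, hn⟩ := Nat.factorial_dvd_factorial e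
    rw [hn, pow_mul, hd, one_pow]
  · obtain ⟨C', _, h⟩ := fix_index α j.factorial_ne_zero
    rw [C0, Subgroup.relIndex_top_right]
    exact (Subgroup.finiteIndex_of_le (H := C') (K := C j) h).1
  · refine ⟨orderOf (⟨a g, a1 g⟩ : D), fun h b y _ => ?_⟩
    beta_reduce
    rw [map_mul, MulAut.mul_apply, b]
    rw [← map_pow, orderOf_dvd_iff_pow_eq_one.1
      (Nat.dvd_factorial (Nat.pos_of_ne_zero (ord_ne _)) le_rfl), map_one]
  · obtain ⟨g, rfl⟩ := QuotientGroup.mk_surjective q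
    refine ⟨(a g)⁻¹ * g, by simp [(QuotientGroup.eq_one_iff _).2 (a1 g)], funext fun y => ?_⟩
    simp [key _ 1 (by simpa using a2 g)]
  · by_contra h
    rw [C0, Subgroup.relIndex_top_right,
      ← Subgroup.index_comap_of_surjective _ (QuotientGroup.mk'_surjective D)] at hH
    have := Subgroup.FiniteIndex.mk hH
    refine p2 (Subgroup.finiteIndex_of_le (H := H.comap (QuotientGroup.mk' D)) fun g hg d => ?_)
    have := not_not.1 fun e => h ⟨_, hg, d, e⟩
    simp only [key d d (by simp), Units.val_eq_one] at this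
    rwa [map_one α] at this

end Pool.Agent.P.MP_90339f_al.H2
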